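import Pool.Agent.Helper65.PI.St

/-!
# Planar inclusions: the complement of an inclusion is connected
-/

set_option autoImplicit false

open Set Filter Topology MeasureTheory Complex
open scoped ContDiff ComplexConjugate

namespace Pool.Agent.Helper65.PI

/-- the union of the good neighbourhoods whose outer part lies in `A` -/
def connO (_Ω D A : Set ℂ) : Set ℂ :=
  ⋃₀ {V | IsOpen V ∧ V \ closure D ⊆ A ∧ ∀ q ∈ V ∩ frontier D, q ∈ closure (V \ closure D)}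

theorem connO_open (Ω D A : Set ℂ) : IsOpen (connO Ω D A) := isOpen_sUnion fun _ hV => hV.1

theorem conn_aux {Ω D A B : Set ℂ} (hΩ : IsPreconnected Ω) (hD : IsOpen D) (hA : IsOpen A)
    (hB : IsOpen B) (hAB : Disjoint A B) (hU : Ω \ closure D ⊆ A ∪ B) (hAn : (Ω ∩ A).Nonempty)
    (hBn : (Ω ∩ B).Nonempty) (hBK : B ⊆ (closure D)ᶜ) (hF : frontier D ⊆ connO Ω D A) :
    False := by
  have hop : IsOpen (A ∪ (D ∪ connO Ω D A)) := hA.union (hD.union (connO_open Ω D A))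
  have hcov : Ω ⊆ (A ∪ (D ∪ connO Ω D A)) ∪ B := by
    intro z hz
    by_cases hzK : z ∈ closure D
    · by_cases hzD : z ∈ D
      · exact Or.inl (Or.inr (Or.inl hzD))
      · refine Or.inl (Or.inr (Or.inr (hF ?_)))
        rw [hD.frontier_eq]
        exact ⟨hzK, hzD⟩
    · rcases hU ⟨hz, hzK⟩ with h | h
      · exact Or.inl (Or.inl h)
      · exact Or.inr h
  obtain ⟨z, _, hz1, hz2⟩ := hΩ _ _ hop hB hcov
    (hAn.mono fun z hz => ⟨hz.1, Or.inl hz.2⟩) hBn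
  rcases hz1 with h | h | h
  · exact Set.disjoint_left.1 hAB h hz2
  · exact hBK hz2 (subset_closure h)
  · obtain ⟨V, hV, hzV⟩ := h
    exact Set.disjoint_left.1 hAB (hV.2.1 ⟨hzV, hBK hz2⟩) hz2

theorem conn (hh : StHALF) : StCONN := by
  intro Ω D hΩo hΩ hadm U W hU hW hUW hUn hWn
  by_contra hcon
  have hK : IsClosed (closure D) := isClosed_closure
  have hG : IsOpen (Ω \ closure D) := hΩo.sdiff hK
  have hA : IsOpen ((Ω \ closure D) ∩ U) := hG.inter hU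
  have hB : IsOpen ((Ω \ closure D) ∩ W) := hG.inter hW
  have hAB : Disjoint ((Ω \ closure D) ∩ U) ((Ω \ closure D) ∩ W) := by
    rw [Set.disjoint_left]
    intro z hz1 hz2
    exact hcon ⟨z, hz1.1, hz1.2, hz2.2⟩
  have hcov : Ω \ closure D ⊆ ((Ω \ closure D) ∩ U) ∪ ((Ω \ closure D) ∩ W) := by
    intro z hz
    rcases hUW hz with h | h
    · exact Or.inl ⟨hz, h⟩
    · exact Or.inr ⟨hz, h⟩
  set A := (Ω \ closure D) ∩ U with hAdef
  set B := (Ω \ closure D) ∩ W with hBdef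
  have hfr : frontier D ⊆ connO Ω D A ∪ connO Ω D B := by
    intro p hp
    obtain ⟨V, hV, hpV, hVΩ, _, hVc, hVf⟩ := hh Ω D ∅ hadm isClosed_empty p hp (by simp) hΩo
    have h1 : V \ closure D ⊆ A ∪ B := fun z hz => hcov ⟨hVΩ hz.1, hz.2⟩
    rcases IsPreconnected.subset_or_subset hA hB hAB h1 hVc with h | h
    · exact Or.inl ⟨V, ⟨hV, h, hVf⟩, hpV⟩
    · exact Or.inr ⟨V, ⟨hV, h, hVf⟩, hpV⟩
  have hdis : ¬ (frontier D ∩ (connO Ω D A ∩ connO Ω D B)).Nonempty := by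
    rintro ⟨q, hq, ⟨V, hV, hqV⟩, ⟨V', hV', hqV'⟩⟩
    have h1 : q ∈ closure (V \ closure D) := hV.2.2 q ⟨hqV, hq⟩
    obtain ⟨z, hz1, hz2⟩ := mem_closure_iff.1 h1 V' hV'.1 hqV'
    exact Set.disjoint_left.1 hAB (hV.2.1 hz2) (hV'.2.1 ⟨hz1, hz2.2⟩)
  have hAn : (Ω ∩ A).Nonempty := hUn.mono fun z hz => ⟨hz.1.1, hz⟩
  have hBn : (Ω ∩ B).Nonempty := hWn.mono fun z hz => ⟨hz.1.1, hz⟩
  have hAK : A ⊆ (closure D)ᶜ := fun z hz => hz.1.2
  have hBK : B ⊆ (closure D)ᶜ := fun z hz => hz.1.2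
  by_cases h1 : (frontier D ∩ connO Ω D B).Nonempty
  · have h2 : ¬ (frontier D ∩ connO Ω D A).Nonempty := fun h2 =>
      hdis (hadm.front.isPreconnected _ _ (connO_open Ω D A) (connO_open Ω D B) hfr h2 h1)
    refine conn_aux hΩ hadm.isOpen hB hA hAB.symm ?_ hBn hAn hAK ?_
    · rw [Set.union_comm]; exact hcov
    · intro p hp
      rcases hfr hp with h | h
      · exact absurd ⟨p, hp, h⟩ h2
      · exact h
  · refine conn_aux hΩ hadm.isOpen hA hB hAB hcov hAn hBn hBK ?_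
    intro p hp
    rcases hfr hp with h | h
    · exact h
    · exact absurd ⟨p, hp, h⟩ h1

end Pool.Agent.Helper65.PI
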