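import Mathlib

/-!
# Planar inclusions and two boundary measurements: definitions
-/

set_option autoImplicit false

open Set Filter Topology MeasureTheory Complex
open scoped ContDiff ComplexConjugate

namespace Pool.Agent.Helper65.PI

/-- the open square of side `2` -/
def box : Set ℂ := {w | |w.re| < 1 ∧ |w.im| < 1}

/-- `D` has smooth boundary: near every boundary point there is a smooth chart with values in the
square in which `D` is the upper half. -/
def SmoothBoundary (D : Set ℂ) : Prop :=
  ∀ p ∈ frontier D, ∃ φ : OpenPartialHomeomorph ℂ ℂ, p ∈ φ.source ∧ φ p = 0 ∧ φ.target = box ∧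
    ContDiffOn ℝ ∞ φ φ.source ∧ ContDiffOn ℝ ∞ φ.symm φ.target ∧
    ∀ z ∈ φ.source, z ∈ D ↔ 0 < (φ z).im

/-- `D` is an admissible inclusion in `Ω`: a connected open set with compact closure in `Ω` whose
boundary is smooth and connected (that is, `D` is the inside of a smooth Jordan curve, or
equivalently `D` is simply connected with smooth boundary). -/
structure Admissible (Ω D : Set ℂ) : Prop where
  isOpen : IsOpen D
  conn : IsConnected D
  compact : IsCompact (closure D)
  sub : closure D ⊆ Ω
  front : IsConnected (frontier D)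
  smooth : SmoothBoundary D

/-- the conductivity: `k` on the inclusion, `1` elsewhere -/
noncomputable def cond (D : Set ℂ) (k : ℝ) (z : ℂ) : ℝ := open Classical in if z ∈ D then k else 1

/-- `g = g₁ + i g₂` is the weak gradient `(g₁, g₂)` of the real function `u` on `Ω`. -/
def WeakGrad (Ω : Set ℂ) (u : ℂ → ℝ) (g : ℂ → ℂ) : Prop :=
  ∀ φ : ℂ → ℝ, ContDiff ℝ ∞ φ → HasCompactSupport φ → tsupport φ ⊆ Ω →
    ∫ z, fderiv ℝ φ z 1 * u z = -∫ z, φ z * (g z).re ∧
    ∫ z, fderiv ℝ φ z I * u z = -∫ z, φ z * (g z).im

/-- `u` is a potential with stream function `v` in the body `Ω` with the inclusion `D` of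
conductivity `k`: `u` and `v` are continuous, `u` has a square integrable weak gradient `g`, and the
weak gradient of `v` is the flux `cond • g` turned by a right angle. -/
structure IsPotential (Ω D : Set ℂ) (k : ℝ) (u v : ℂ → ℝ) : Prop where
  cont_u : ContinuousOn u Ω
  cont_v : ContinuousOn v Ω
  grad : ∃ g : ℂ → ℂ, MemLp g 2 (volume.restrict Ω) ∧ WeakGrad Ω u g ∧
    WeakGrad Ω v (fun z => (cond D k z : ℂ) * (I * g z))

/-- The pairs `(u, v)` and `(u', v')` have the same Dirichlet data and the same Neumann data: at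
the boundary of `Ω` the difference of the potentials tends to `0` and the difference of the stream
functions tends to a constant. -/
def SameData (Ω : Set ℂ) (u v u' v' : ℂ → ℝ) : Prop :=
  (∀ ζ ∈ frontier Ω, Tendsto (fun z => u z - u' z) (𝓝[Ω] ζ) (𝓝 0)) ∧
  ∃ c : ℝ, ∀ ζ ∈ frontier Ω, Tendsto (fun z => v z - v' z) (𝓝[Ω] ζ) (𝓝 c)

end Pool.Agent.Helper65.PI
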