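import Pool.Agent.Helper65.PI.St

/-!
# Planar inclusions, module EQ: equal constants
-/

set_option autoImplicit false

open Set Filter Topology MeasureTheory Complex
open scoped ContDiff ComplexConjugate

namespace Pool.Agent.Helper65.PI

namespace EQaux

/-- a function `g₁ + conj g₂` which vanishes on the boundary vanishes inside -/
theorem vanish (hm : StMAX) (V : Set ℂ) (g₁ g₂ : ℂ → ℂ) (hV : IsOpen V)
    (hb : Bornology.IsBounded V) (h1 : ContinuousOn g₁ (closure V))
    (h2 : ContinuousOn g₂ (closure V)) (h3 : DifferentiableOn ℂ g₁ V)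
    (h4 : DifferentiableOn ℂ g₂ V) (h0 : ∀ z ∈ frontier V, g₁ z + conj (g₂ z) = 0) :
    ∀ z ∈ V, g₁ z + conj (g₂ z) = 0 := by
  intro z hz
  have key : ∀ a : ℂ, (a * (g₁ z + conj (g₂ z))).re ≤ 0 := by
    intro a
    apply hm V g₁ g₂ hV hb h1 h2 h3 h4 a 0 _ z hz
    intro w hw
    rw [h0 w hw, mul_zero, zero_re]
  generalize g₁ z + conj (g₂ z) = W at key
  have k1 := key 1
  have k2 := key (-1)
  have k3 := key I
  have k4 := key (-I)
  simp only [one_mul, neg_mul, neg_re, mul_re, I_re, I_im, zero_mul, zero_sub] at k1 k2 k3 k4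
  apply Complex.ext
  · rw [zero_re]
    linarith
  · rw [zero_im]
    linarith

end EQaux

open EQaux in
theorem eqq (hk : StKK) (hm : StMAX) (hr : StRIG) (hi : StINT) : StEQ := by
  intro Ω D D' P Q Q' c κ C hS
  obtain ⟨hKc, hKD, hKD', hKf⟩ := hk Ω D D' P Q Q' c κ κ C hS
  have hKcl : IsClosed (KK Ω D D' Q Q') := hKc.isClosed
  have hKsub : KK Ω D D' Q Q' ⊆ Ω := fun z hz => hz.1
  generalize KK Ω D D' Q Q' = K at hKc hKD hKD' hKf hKcl hKsub
  have hNo : IsOpen (interior K \ closure D) := isOpen_interior.sdiff isClosed_closure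
  have hNK : interior K \ closure D ⊆ K := fun z hz => interior_subset hz.1
  have hNcl : closure (interior K \ closure D) ⊆ K := closure_minimal hNK hKcl
  have hempty : ¬ (interior K \ closure D).Nonempty := by
    intro hne
    apply hS.nonconst
    have hW : ∀ z ∈ interior K \ closure D, (Q z - κ) + conj (-(c : ℂ) * P z) = 0 := by
      refine vanish hm (interior K \ closure D) (fun z => Q z - κ) (fun z => -(c : ℂ) * P z) hNo
        (hS.bdd_Ω.subset (hNK.trans hKsub)) ?_ ?_ ?_ ?_ ?_
      · exact (hS.contQ.mono (hNcl.trans hKsub)).sub continuousOn_const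
      · exact continuousOn_const.mul (hS.holP.continuousOn.mono (hNcl.trans hKsub))
      · exact (hS.holQ.mono fun z hz => ⟨hKsub (hNK hz), hz.2⟩).sub_const κ
      · exact (hS.holP.mono (hNK.trans hKsub)).const_mul _
      · intro z hz
        have hQ : Q z = c * conj (P z) + κ := by
          by_cases hzD : z ∈ closure D
          · exact hS.eqD z hzD
          · have hzK : z ∈ K := hNcl hz.1
            have hzi : z ∉ interior K := by
              intro h
              exact hz.2 (hNo.interior_eq.symm ▸ ⟨h, hzD⟩)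
            have hzf : z ∈ frontier K := ⟨subset_closure hzK, hzi⟩
            obtain ⟨h1, _, _, h2⟩ := hKf z hzf
            rcases h2 with h2 | h2
            · exact absurd (frontier_subset_closure h2) hzD
            · rw [h1]
              exact hS.eqD' z (frontier_subset_closure h2)
        change (Q z - κ) + conj (-(c : ℂ) * P z) = 0
        rw [hQ, map_mul, map_neg, conj_ofReal]
        ring
    refine hr Ω (interior K \ closure D) P Q c κ hS.open_Ω hS.conn_Ω.isPreconnected hS.holP hNo
      hne (hNK.trans hKsub) (hS.holQ.mono fun z hz => ⟨hKsub (hNK hz), hz.2⟩) hS.c_ne ?_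
    intro z hz
    have h1 := hW z hz
    rw [map_mul, map_neg, conj_ofReal] at h1
    linear_combination h1
  have hKint : interior K ⊆ closure D := by
    intro z hz
    by_contra hzD
    exact hempty ⟨z, hz, hzD⟩
  have hD' : D' ⊆ interior K := interior_maximal (subset_closure.trans hKD') hS.adm'.isOpen
  have h2 : D' ⊆ interior (closure D) := interior_maximal (hD'.trans hKint) hS.adm'.isOpen
  rw [hi Ω D hS.adm] at h2
  exact h2

end Pool.Agent.Helper65.PI
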