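import Pool.Agent.Helper65.PI.St

/-!
# Planar inclusions: holomorphic extension (module EXT)
-/

set_option autoImplicit false

open Set Filter Topology MeasureTheory Complex
open scoped ContDiff ComplexConjugate

namespace Pool.Agent.Helper65.PI

private lemma int_cont_EXT {Ω : Set ℂ} (hΩ : IsOpen Ω) {f ψ : ℂ → ℂ} (hf : ContinuousOn f Ω)
    (hψ : Continuous ψ) (hc : HasCompactSupport ψ) (hs : tsupport ψ ⊆ Ω) :
    Integrable (fun z => ψ z * f z) := by
  have hc' : HasCompactSupport (fun z => ψ z * f z) := hc.mul_right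
  refine Continuous.integrable_of_hasCompactSupport ?_ hc'
  refine ContinuousOn.continuous_of_tsupport_subset (hψ.continuousOn.mul hf) hΩ ?_
  exact (closure_mono (Function.support_mul_subset_left _ _)).trans hs

private lemma int_g_EXT {Ω : Set ℂ} {g : ℂ → ℂ} (hg : MemLp g 2 (volume.restrict Ω))
    {ψ : ℂ → ℂ} (hψ : Continuous ψ) (hc : HasCompactSupport ψ) (hs : tsupport ψ ⊆ Ω) :
    Integrable (fun z => ψ z * g z) := by
  have hK : IsCompact (tsupport ψ) := hc
  have h1 : IntegrableOn g (tsupport ψ) := by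
    have : IsFiniteMeasure (volume.restrict (tsupport ψ)) :=
      ⟨by rw [Measure.restrict_apply_univ]; exact hK.measure_lt_top⟩
    have h2 : MemLp g 2 (volume.restrict (tsupport ψ)) :=
      hg.mono_measure (Measure.restrict_mono hs le_rfl)
    exact h2.integrable one_le_two
  obtain ⟨C, hC⟩ := hψ.bounded_above_of_compact_support hc
  have h3 : IntegrableOn (fun z => ψ z * g z) (tsupport ψ) :=
    Integrable.bdd_mul (c := C) h1 hψ.aestronglyMeasurable (Eventually.of_forall hC)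
  refine (integrableOn_iff_integrable_of_support_subset ?_).1 h3
  exact (Function.support_mul_subset_left _ _).trans (subset_tsupport _)

/-- the complex form of the weak gradient -/
private lemma weak_EXT {Ω : Set ℂ} (hΩ : IsOpen Ω) {w : ℂ → ℝ} {G : ℂ → ℂ}
    (hw : ContinuousOn w Ω) (hW : WeakGrad Ω w G) {φ : ℂ → ℝ} (hφ : ContDiff ℝ ∞ φ)
    (hc : HasCompactSupport φ) (hs : tsupport φ ⊆ Ω) (hG : Integrable (fun z => (φ z : ℂ) * G z)) :
    Integrable (fun z => ((fderiv ℝ φ z 1 : ℂ) + I * (fderiv ℝ φ z I : ℂ)) * (w z : ℂ)) ∧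
    ∫ z, ((fderiv ℝ φ z 1 : ℂ) + I * (fderiv ℝ φ z I : ℂ)) * (w z : ℂ) =
      -∫ z, (φ z : ℂ) * G z := by
  have hwc : ContinuousOn (fun z => (w z : ℂ)) Ω := continuous_ofReal.comp_continuousOn hw
  have hd : ∀ e : ℂ, Integrable (fun z => (fderiv ℝ φ z e : ℂ) * (w z : ℂ)) := by
    intro e
    have h1 : Continuous (fun z => (fderiv ℝ φ z e : ℂ)) := by
      have h2 : Continuous (fderiv ℝ φ) := hφ.continuous_fderiv (by simp)
      exact continuous_ofReal.comp (h2.clm_apply continuous_const)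
    have h3 : HasCompactSupport (fun z => (fderiv ℝ φ z e : ℂ)) :=
      (hc.fderiv_apply (𝕜 := ℝ) e).comp_left (g := fun t : ℝ => (t : ℂ)) ofReal_zero
    have h4 : tsupport (fun z => (fderiv ℝ φ z e : ℂ)) ⊆ Ω := by
      refine Subset.trans ?_ hs
      refine Subset.trans (closure_mono ?_) (tsupport_fderiv_apply_subset ℝ e)
      intro z hz
      simp only [Function.mem_support, ne_eq, ofReal_eq_zero] at hz ⊢
      exact hz
    exact int_cont_EXT hΩ hwc h1 h3 h4
  obtain ⟨h1, h2⟩ := hW φ hφ hc hs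
  have e1 : ∫ z, (fderiv ℝ φ z 1 : ℂ) * (w z : ℂ) = -∫ z, ((φ z * (G z).re : ℝ) : ℂ) := by
    rw [integral_complex_ofReal, ← ofReal_neg, ← h1, ← integral_complex_ofReal]
    exact integral_congr_ae (Eventually.of_forall fun z => by push_cast; rfl)
  have e2 : ∫ z, (fderiv ℝ φ z I : ℂ) * (w z : ℂ) = -∫ z, ((φ z * (G z).im : ℝ) : ℂ) := by
    rw [integral_complex_ofReal, ← ofReal_neg, ← h2, ← integral_complex_ofReal]
    exact integral_congr_ae (Eventually.of_forall fun z => by push_cast; rfl)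
  have i1 : Integrable (fun z => ((φ z * (G z).re : ℝ) : ℂ)) := by
    have := hG.re.ofReal (𝕜 := ℂ)
    refine this.congr (Eventually.of_forall fun z => ?_)
    simp
  have i2 : Integrable (fun z => ((φ z * (G z).im : ℝ) : ℂ)) := by
    have := hG.im.ofReal (𝕜 := ℂ)
    refine this.congr (Eventually.of_forall fun z => ?_)
    simp
  have hsplit : (fun z => ((fderiv ℝ φ z 1 : ℂ) + I * (fderiv ℝ φ z I : ℂ)) * (w z : ℂ)) =
      fun z => (fderiv ℝ φ z 1 : ℂ) * (w z : ℂ) + I * ((fderiv ℝ φ z I : ℂ) * (w z : ℂ)) := by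
    funext z; ring
  refine ⟨?_, ?_⟩
  · rw [hsplit]
    exact (hd 1).add ((hd I).const_mul I)
  · rw [hsplit, integral_add (hd 1) ((hd I).const_mul I), integral_const_mul, e1, e2]
    have h5 : ∫ z, (φ z : ℂ) * G z =
        ∫ z, (((φ z * (G z).re : ℝ) : ℂ) + I * ((φ z * (G z).im : ℝ) : ℂ)) := by
      refine integral_congr_ae (Eventually.of_forall fun z => ?_)
      change (φ z : ℂ) * G z = ((φ z * (G z).re : ℝ) : ℂ) + I * ((φ z * (G z).im : ℝ) : ℂ)
      nth_rewrite 1 [← re_add_im (G z)]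
      push_cast
      ring
    rw [h5, integral_add i1 (i2.const_mul I), integral_const_mul]
    ring

/-- a holomorphic function is annihilated by the Cauchy-Riemann operator -/
private lemma cr_EXT {D : Set ℂ} (hD : IsOpen D) {h : ℂ → ℂ} (hh : DifferentiableOn ℂ h D)
    {φ : ℂ → ℝ} (hφ : ContDiff ℝ ∞ φ) (hc : HasCompactSupport φ) (hs : tsupport φ ⊆ D) :
    ∫ z, ((fderiv ℝ φ z 1 : ℂ) + I * (fderiv ℝ φ z I : ℂ)) * h z = 0 := by
  set ψ : ℂ → ℂ := fun z => (φ z : ℂ) * h z with hψ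
  have hsub : tsupport ψ ⊆ tsupport φ := by
    refine closure_mono ?_
    intro z hz
    simp only [hψ, Function.mem_support, ne_eq, mul_eq_zero, not_or, ofReal_eq_zero] at hz ⊢
    exact hz.1
  have hcψ : HasCompactSupport ψ := hc.of_isClosed_subset (isClosed_tsupport _) hsub
  have hφc : ContDiff ℝ ∞ (fun z => (φ z : ℂ)) := ofRealCLM.contDiff.comp hφ
  have hhr : ContDiffOn ℝ 1 h D :=
    ((hh.contDiffOn hD : ContDiffOn ℂ 1 h D)).restrict_scalars ℝ
  have hψd : ContDiff ℝ 1 ψ := by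
    refine contDiff_iff_contDiffAt.2 fun z => ?_
    by_cases hz : z ∈ tsupport ψ
    · have hzD : z ∈ D := hs (hsub hz)
      exact ((hφc.of_le (by simp)).contDiffAt).mul (hhr.contDiffAt (hD.mem_nhds hzD))
    · have h0 : ψ =ᶠ[𝓝 z] fun _ => 0 := notMem_tsupport_iff_eventuallyEq.1 hz
      exact contDiffAt_const.congr_of_eventuallyEq h0
  -- the integral of a derivative of `ψ` vanishes
  have hint : ∀ e : ℂ, Integrable (fun z => fderiv ℝ ψ z e) ∧ ∫ z, fderiv ℝ ψ z e = 0 := by
    intro e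
    have h2 : Continuous (fderiv ℝ ψ) := hψd.continuous_fderiv one_ne_zero
    have i1 : Integrable (fun z => fderiv ℝ ψ z e) :=
      (h2.clm_apply continuous_const).integrable_of_hasCompactSupport
        (hcψ.fderiv_apply (𝕜 := ℝ) e)
    refine ⟨i1, ?_⟩
    have h3 := integral_mul_fderiv_eq_neg_fderiv_mul_of_integrable (𝕜 := ℂ) (μ := volume)
      (v := e) (f := fun _ : ℂ => (1 : ℂ)) (g := ψ) (by simp)
      (by simpa using i1) (by simpa using hψd.continuous.integrable_of_hasCompactSupport hcψ)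
      (fun _ _ => differentiableAt_const _) (fun x _ => (hψd.differentiable one_ne_zero) x)
    simpa using h3
  have hval : ∀ z, fderiv ℝ ψ z 1 + I * fderiv ℝ ψ z I =
      ((fderiv ℝ φ z 1 : ℂ) + I * (fderiv ℝ φ z I : ℂ)) * h z := by
    intro z
    by_cases hz : z ∈ D
    · have hd1 : HasFDerivAt (fun z => (φ z : ℂ)) (ofRealCLM.comp (fderiv ℝ φ z)) z :=
        ofRealCLM.hasFDerivAt.comp z ((hφ.differentiable (by simp)) z).hasFDerivAt
      have hd2 : HasDerivAt h (deriv h z) z := (hh.differentiableAt (hD.mem_nhds hz)).hasDerivAt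
      have hd3 : HasFDerivAt h
          ((ContinuousLinearMap.toSpanSingleton ℂ (deriv h z)).restrictScalars ℝ) z :=
        hd2.hasFDerivAt.restrictScalars ℝ
      have hd4 := (hd1.mul hd3).fderiv
      have : fderiv ℝ ψ z = _ := hd4
      rw [this]
      simp only [add_apply, smul_apply,
        ContinuousLinearMap.coe_restrictScalars', ContinuousLinearMap.toSpanSingleton_apply,
        ContinuousLinearMap.comp_apply, ofRealCLM_apply, smul_eq_mul, one_mul]
      linear_combination ((φ z : ℂ) * deriv h z) * I_mul_I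
    · have h0 : φ =ᶠ[𝓝 z] 0 := notMem_tsupport_iff_eventuallyEq.1 (fun h' => hz (hs h'))
      have h1 : ψ =ᶠ[𝓝 z] 0 := by
        filter_upwards [h0] with w hw
        simp only [hψ, Pi.zero_apply] at hw ⊢
        rw [hw]; simp
      have e0 : fderiv ℝ φ z = 0 := by
        rw [h0.fderiv_eq]; simp
      have e1 : fderiv ℝ ψ z = 0 := by
        rw [h1.fderiv_eq]; simp
      rw [e0, e1]; simp
  have := hint 1
  calc ∫ z, ((fderiv ℝ φ z 1 : ℂ) + I * (fderiv ℝ φ z I : ℂ)) * h z
      = ∫ z, (fderiv ℝ ψ z 1 + I * fderiv ℝ ψ z I) :=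
        integral_congr_ae (Eventually.of_forall fun z => (hval z).symm)
    _ = 0 := by
        rw [integral_add (hint 1).1 ((hint I).1.const_mul I), integral_const_mul, (hint 1).2,
          (hint I).2, mul_zero, add_zero]

private lemma four_EXT {f₁ f₂ f₃ f₄ : ℂ → ℂ} (h₁ : Integrable f₁) (h₂ : Integrable f₂)
    (h₃ : Integrable f₃) (h₄ : Integrable f₄) (a b c : ℂ) :
    ∫ z, ((f₁ z + a * f₂ z) + (b * f₃ z + c * f₄ z)) =
      ((∫ z, f₁ z) + a * ∫ z, f₂ z) + (b * (∫ z, f₃ z) + c * ∫ z, f₄ z) := by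
  have i12 : Integrable (fun z => f₁ z + a * f₂ z) := h₁.add (h₂.const_mul a)
  have i34 : Integrable (fun z => b * f₃ z + c * f₄ z) := (h₃.const_mul b).add (h₄.const_mul c)
  rw [integral_add i12 i34, integral_add h₁ (h₂.const_mul a),
    integral_add (h₃.const_mul b) (h₄.const_mul c), integral_const_mul, integral_const_mul,
    integral_const_mul]

theorem ext (hw : StWEYL) : StEXT := by
  intro Ω D k u v lam hΩ hD hDΩ hk hpot hhol
  have hg : ∀ j, ∃ g : ℂ → ℂ, MemLp g 2 (volume.restrict Ω) ∧ WeakGrad Ω (u j) g ∧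
      WeakGrad Ω (v j) (fun z => (cond D k z : ℂ) * (I * g z)) := fun j => (hpot j).grad
  choose g hgL hgu hgv using hg
  have hmeas : Measurable fun z => (cond D k z : ℂ) := by
    refine measurable_ofReal.comp ?_
    unfold cond
    exact Measurable.ite hD.measurableSet measurable_const measurable_const
  have hbd : ∀ z, ‖(cond D k z : ℂ)‖ ≤ max k 1 := by
    intro z
    rw [norm_real, Real.norm_eq_abs]
    unfold cond
    split_ifs
    · rw [abs_of_pos hk]; exact le_max_left _ _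
    · rw [abs_one]; exact le_max_right _ _
  -- integrability
  have hI : ∀ (φ : ℂ → ℝ), ContDiff ℝ ∞ φ → HasCompactSupport φ → tsupport φ ⊆ Ω → ∀ j,
      Integrable (fun z => (φ z : ℂ) * g j z) ∧
      Integrable (fun z => (φ z : ℂ) * ((cond D k z : ℂ) * (I * g j z))) := by
    intro φ hφ hc hs j
    have hts : tsupport (fun z => (φ z : ℂ)) ⊆ Ω := by
      refine Subset.trans (closure_mono ?_) hs
      intro z hz
      simp only [Function.mem_support, ne_eq, ofReal_eq_zero] at hz ⊢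
      exact hz
    have hcc : HasCompactSupport (fun z => (φ z : ℂ)) :=
      hc.comp_left (g := fun t : ℝ => (t : ℂ)) ofReal_zero
    have h1 : Integrable (fun z => (φ z : ℂ) * g j z) :=
      int_g_EXT (hgL j) (continuous_ofReal.comp hφ.continuous) hcc hts
    refine ⟨h1, ?_⟩
    have h2 : Integrable (fun z => (cond D k z : ℂ) * (I * ((φ z : ℂ) * g j z))) :=
      Integrable.bdd_mul (c := max k 1) (h1.const_mul I) hmeas.aestronglyMeasurable
        (Eventually.of_forall hbd)
    refine h2.congr (Eventually.of_forall fun z => ?_)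
    simp only
    ring
  -- the combination of the gradients vanishes on `D`
  have hzero : ∀ᵐ z, z ∈ D → g 0 z + lam * g 1 z = 0 := by
    refine hD.ae_eq_zero_of_integral_contDiff_smul_eq_zero ?_ ?_
    · have h1 : MemLp (fun z => g 0 z + lam * g 1 z) 2 (volume.restrict Ω) :=
        (hgL 0).add ((hgL 1).const_mul lam)
      exact (locallyIntegrableOn_of_locallyIntegrable_restrict
        (h1.locallyIntegrable one_le_two)).mono_set hDΩ
    · intro φ hφ hc hs
      have hsΩ : tsupport φ ⊆ Ω := hs.trans hDΩ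
      have w0 := weak_EXT hΩ (hpot 0).cont_u (hgu 0) hφ hc hsΩ (hI φ hφ hc hsΩ 0).1
      have w1 := weak_EXT hΩ (hpot 1).cont_u (hgu 1) hφ hc hsΩ (hI φ hφ hc hsΩ 1).1
      have h0 := cr_EXT hD hhol hφ hc hs
      have e1 : ∫ z, ((fderiv ℝ φ z 1 : ℂ) + I * (fderiv ℝ φ z I : ℂ)) *
          ((u 0 z : ℂ) + lam * (u 1 z : ℂ)) =
          (∫ z, ((fderiv ℝ φ z 1 : ℂ) + I * (fderiv ℝ φ z I : ℂ)) * (u 0 z : ℂ)) +
          lam * ∫ z, ((fderiv ℝ φ z 1 : ℂ) + I * (fderiv ℝ φ z I : ℂ)) * (u 1 z : ℂ) := by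
        rw [← integral_const_mul, ← integral_add w0.1 (w1.1.const_mul lam)]
        refine integral_congr_ae (Eventually.of_forall fun z => ?_)
        simp only
        ring
      rw [e1, w0.2, w1.2] at h0
      have e2 : ∫ z, φ z • (g 0 z + lam * g 1 z) =
          (∫ z, (φ z : ℂ) * g 0 z) + lam * ∫ z, (φ z : ℂ) * g 1 z := by
        rw [← integral_const_mul, ← integral_add (hI φ hφ hc hsΩ 0).1
          ((hI φ hφ hc hsΩ 1).1.const_mul lam)]
        refine integral_congr_ae (Eventually.of_forall fun z => ?_)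
        simp only [real_smul]
        ring
      rw [e2]
      linear_combination -h0
  -- Weyl
  have hcont : ∀ j, ContinuousOn (FF (u j) (v j)) Ω := by
    intro j
    unfold FF
    exact (continuous_ofReal.comp_continuousOn (hpot j).cont_u).add
      (continuousOn_const.mul (continuous_ofReal.comp_continuousOn (hpot j).cont_v))
  refine hw Ω _ hΩ ((hcont 0).add (continuousOn_const.mul (hcont 1))) ?_
  intro φ hφ hc hs
  have a0 := hI φ hφ hc hs 0
  have a1 := hI φ hφ hc hs 1
  have wu0 := weak_EXT hΩ (hpot 0).cont_u (hgu 0) hφ hc hs a0.1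
  have wu1 := weak_EXT hΩ (hpot 1).cont_u (hgu 1) hφ hc hs a1.1
  have wv0 := weak_EXT hΩ (hpot 0).cont_v (hgv 0) hφ hc hs a0.2
  have wv1 := weak_EXT hΩ (hpot 1).cont_v (hgv 1) hφ hc hs a1.2
  have e1 : ∫ z, ((fderiv ℝ φ z 1 : ℂ) + I * (fderiv ℝ φ z I : ℂ)) *
      (FF (u 0) (v 0) z + lam * FF (u 1) (v 1) z) =
      ((∫ z, ((fderiv ℝ φ z 1 : ℂ) + I * (fderiv ℝ φ z I : ℂ)) * (u 0 z : ℂ)) +
        I * ∫ z, ((fderiv ℝ φ z 1 : ℂ) + I * (fderiv ℝ φ z I : ℂ)) * (v 0 z : ℂ)) +
      (lam * (∫ z, ((fderiv ℝ φ z 1 : ℂ) + I * (fderiv ℝ φ z I : ℂ)) * (u 1 z : ℂ)) +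
        (lam * I) * ∫ z, ((fderiv ℝ φ z 1 : ℂ) + I * (fderiv ℝ φ z I : ℂ)) * (v 1 z : ℂ)) := by
    rw [← four_EXT wu0.1 wv0.1 wu1.1 wv1.1]
    refine integral_congr_ae (Eventually.of_forall fun z => ?_)
    simp only [FF]
    ring
  rw [e1, wu0.2, wu1.2, wv0.2, wv1.2]
  have e2 : (∫ z, (φ z : ℂ) * g 0 z) + I * (∫ z, (φ z : ℂ) * ((cond D k z : ℂ) * (I * g 0 z))) +
      (lam * (∫ z, (φ z : ℂ) * g 1 z) +
        (lam * I) * ∫ z, (φ z : ℂ) * ((cond D k z : ℂ) * (I * g 1 z))) = 0 := by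
    rw [← four_EXT a0.1 a0.2 a1.1 a1.2]
    rw [show (0 : ℂ) = ∫ _ : ℂ, (0 : ℂ) by simp]
    refine integral_congr_ae ?_
    filter_upwards [hzero] with z hz
    by_cases hzD : z ∈ D
    · have h1 := hz hzD
      have h2 : (I * I : ℂ) = -1 := I_mul_I
      linear_combination (φ z : ℂ) * h1 + (φ z : ℂ) * (cond D k z : ℂ) * (I * I) * h1
    · have hcd : (cond D k z : ℂ) = 1 := by
        unfold cond
        rw [if_neg hzD]; simp
      rw [hcd]
      linear_combination ((φ z : ℂ) * g 0 z + lam * (φ z : ℂ) * g 1 z) * I_mul_I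
  linear_combination -e2

end Pool.Agent.Helper65.PI
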