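import Pool.Agent.Helper65.PI.St

set_option autoImplicit false

open Set Filter Topology MeasureTheory Complex
open scoped ContDiff ComplexConjugate

namespace Pool.Agent.Helper65.PI

/-- the open square of side `2 ε` -/
def sq_HALF (ε : ℝ) : Set ℂ := {w | |w.re| < ε ∧ |w.im| < ε}

theorem isOpen_sq_HALF (ε : ℝ) : IsOpen (sq_HALF ε) := by
  have h1 : IsOpen {w : ℂ | |w.re| < ε} :=
    isOpen_lt (continuous_abs.comp continuous_re) continuous_const
  have h2 : IsOpen {w : ℂ | |w.im| < ε} :=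
    isOpen_lt (continuous_abs.comp continuous_im) continuous_const
  exact h1.inter h2

theorem convex_low_HALF (ε : ℝ) : Convex ℝ (sq_HALF ε ∩ {w : ℂ | w.im < 0}) := by
  intro x hx y hy a b ha hb hab
  obtain ⟨⟨hx1, hx2⟩, hx3⟩ := hx
  obtain ⟨⟨hy1, hy2⟩, hy3⟩ := hy
  rw [mem_ofPred_eq] at hx3 hy3
  rw [abs_lt] at hx1 hx2 hy1 hy2
  have e1 : (a • x + b • y).re = a * x.re + b * y.re := by simp
  have e2 : (a • x + b • y).im = a * x.im + b * y.im := by simp
  have key : ∀ s t u : ℝ, s < u → t < u → a * s + b * t < u := by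
    intro s t u hs ht
    have e : u = a * u + b * u := by rw [← add_mul, hab, one_mul]
    rcases ha.eq_or_lt with h | h
    · subst h
      have hb1 : b = 1 := by linarith
      subst hb1
      linarith
    · rw [e]
      nlinarith
  have key2 : ∀ s t u : ℝ, -u < s → -u < t → -u < a * s + b * t := by
    intro s t u hs ht
    have := key (-s) (-t) u (by linarith) (by linarith)
    linarith
  refine ⟨⟨?_, ?_⟩, ?_⟩
  · rw [e1, abs_lt]
    exact ⟨key2 _ _ _ hx1.1 hy1.1, key _ _ _ hx1.2 hy1.2⟩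
  · rw [e2, abs_lt]
    exact ⟨key2 _ _ _ hx2.1 hy2.1, key _ _ _ hx2.2 hy2.2⟩
  · rw [mem_ofPred_eq, e2]
    exact key _ _ _ hx3 hy3

/-- moving in the chart -/
theorem tendsto_HALF (φ : OpenPartialHomeomorph ℂ ℂ) (q : ℂ) (hq : q ∈ φ.source) (v : ℂ) :
    Tendsto (fun t : ℝ => φ.symm (φ q + t * v)) (𝓝[>] 0) (𝓝 q) := by
  have h1 : Tendsto (fun t : ℝ => φ q + t * v) (𝓝[>] 0) (𝓝 (φ q)) := by
    have : Continuous fun t : ℝ => φ q + t * v := by fun_prop
    have h2 := this.tendsto 0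
    simp only [ofReal_zero, zero_mul, add_zero] at h2
    exact h2.mono_left nhdsWithin_le_nhds
  have h3 := (φ.continuousAt_symm (φ.map_source hq)).tendsto
  rw [φ.left_inv hq] at h3
  exact h3.comp h1

theorem eventually_HALF (φ : OpenPartialHomeomorph ℂ ℂ) (q : ℂ) (v : ℂ) (S : Set ℂ)
    (hS : IsOpen S) (hqS : φ q ∈ S) : ∀ᶠ t : ℝ in 𝓝[>] 0, φ q + t * v ∈ S := by
  have : Continuous fun t : ℝ => φ q + t * v := by fun_prop
  have h2 := this.tendsto 0
  simp only [ofReal_zero, zero_mul, add_zero] at h2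
  exact (h2.mono_left nhdsWithin_le_nhds).eventually (hS.mem_nhds hqS)

theorem mem_closure_HALF (D : Set ℂ) (φ : OpenPartialHomeomorph ℂ ℂ)
    (h : ∀ z ∈ φ.source, z ∈ D ↔ 0 < (φ z).im) (z : ℂ) (hz : z ∈ φ.source) :
    z ∈ closure D ↔ 0 ≤ (φ z).im := by
  constructor
  · intro hc
    by_contra hn
    rw [not_le] at hn
    have hop : IsOpen (φ.source ∩ φ ⁻¹' {w : ℂ | w.im < 0}) :=
      φ.isOpen_inter_preimage (isOpen_lt continuous_im continuous_const)
    obtain ⟨y, hy, hyD⟩ := mem_closure_iff.mp hc _ hop ⟨hz, hn⟩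
    have h1 := (h y hy.1).mp hyD
    have h2 : (φ y).im < 0 := hy.2
    linarith
  · intro h0
    refine mem_closure_of_tendsto (tendsto_HALF φ z hz I) ?_
    filter_upwards [eventually_HALF φ z I φ.target φ.open_target (φ.map_source hz),
      self_mem_nhdsWithin] with t ht ht0
    rw [mem_Ioi] at ht0
    rw [h _ (φ.map_target ht), φ.right_inv ht]
    simp only [add_im, mul_im, ofReal_re, I_im, mul_one, ofReal_im, I_re, mul_zero, add_zero]
    linarith

theorem half : StHALF := by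
  intro Ω D C hadm hC p hp hpC hΩ
  obtain ⟨φ, hps, hp0, htar, -, -, hD⟩ := hadm.smooth p hp
  have hcl := mem_closure_HALF D φ hD
  have h0t : (0 : ℂ) ∈ φ.target := by rw [← hp0]; exact φ.map_source hps
  have hsymm0 : φ.symm 0 = p := by rw [← hp0]; exact φ.left_inv hps
  have hW : Ω ∩ Cᶜ ∈ 𝓝 p :=
    (hΩ.inter hC.isOpen_compl).mem_nhds ⟨hadm.sub (frontier_subset_closure hp), hpC⟩
  have hpre : φ.symm ⁻¹' (Ω ∩ Cᶜ) ∈ 𝓝 (0 : ℂ) := by
    have := (φ.continuousAt_symm h0t).tendsto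
    rw [hsymm0] at this
    exact this hW
  obtain ⟨δ, hδ, hball⟩ := Metric.mem_nhds_iff.mp hpre
  obtain ⟨ε, hε, hε1, hεδ⟩ : ∃ ε : ℝ, 0 < ε ∧ ε ≤ 1 ∧ 2 * ε ≤ δ :=
    ⟨min 1 (δ / 2), lt_min one_pos (by linarith), min_le_left _ _, by
      have := min_le_right 1 (δ / 2)
      linarith⟩
  have hsq : ∀ w ∈ sq_HALF ε, w ∈ φ.target ∧ φ.symm w ∈ Ω ∩ Cᶜ := by
    intro w hw
    refine ⟨?_, ?_⟩
    · rw [htar]
      exact ⟨lt_of_lt_of_le hw.1 hε1, lt_of_lt_of_le hw.2 hε1⟩
    · apply hball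
      rw [Metric.mem_ball, dist_zero_right]
      have h1 := Complex.norm_le_abs_re_add_abs_im w
      have h2 := hw.1
      have h3 := hw.2
      linarith
  have hVo : IsOpen (φ.source ∩ φ ⁻¹' sq_HALF ε) := φ.isOpen_inter_preimage (isOpen_sq_HALF ε)
  have hVW : ∀ z ∈ φ.source ∩ φ ⁻¹' sq_HALF ε, z ∈ Ω ∩ Cᶜ := by
    intro z hz
    have := (hsq _ hz.2).2
    rwa [φ.left_inv hz.1] at this
  refine ⟨φ.source ∩ φ ⁻¹' sq_HALF ε, hVo, ⟨hps, ?_⟩, fun z hz => (hVW z hz).1, ?_, ?_, ?_⟩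
  · show φ p ∈ sq_HALF ε
    rw [hp0]
    exact ⟨by simpa using hε, by simpa using hε⟩
  · rw [Set.disjoint_left]
    intro z hz hzC
    exact (hVW z hz).2 hzC
  · have e : (φ.source ∩ φ ⁻¹' sq_HALF ε) \ closure D =
        φ.symm '' (sq_HALF ε ∩ {w : ℂ | w.im < 0}) := by
      ext z
      constructor
      · rintro ⟨hz, hzc⟩
        refine ⟨φ z, ⟨hz.2, ?_⟩, φ.left_inv hz.1⟩
        rw [mem_ofPred_eq]
        by_contra hn
        exact hzc ((hcl z hz.1).mpr (not_lt.mp hn))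
      · rintro ⟨w, ⟨hw, hw0⟩, rfl⟩
        have hwt := (hsq w hw).1
        refine ⟨⟨φ.map_target hwt, ?_⟩, ?_⟩
        · show φ (φ.symm w) ∈ sq_HALF ε
          rw [φ.right_inv hwt]
          exact hw
        · rw [hcl _ (φ.map_target hwt), φ.right_inv hwt, not_le]
          exact hw0
    rw [e]
    refine (convex_low_HALF ε).isPreconnected.image _ ?_
    exact φ.symm.continuousOn.mono fun w hw => (hsq w hw.1).1
  · rintro q ⟨hqV, hqf⟩
    have hq0 : (φ q).im = 0 := by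
      have h1 := (hcl q hqV.1).mp (frontier_subset_closure hqf)
      have h2 : ¬ 0 < (φ q).im := by
        rw [← hD q hqV.1]
        intro h3
        rw [frontier, hadm.isOpen.interior_eq] at hqf
        exact hqf.2 h3
      exact le_antisymm (not_lt.mp h2) h1
    refine mem_closure_of_tendsto (tendsto_HALF φ q hqV.1 (-I)) ?_
    filter_upwards [eventually_HALF φ q (-I) (sq_HALF ε) (isOpen_sq_HALF ε) hqV.2,
      self_mem_nhdsWithin] with t ht ht0
    rw [mem_Ioi] at ht0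
    have hwt := (hsq _ ht).1
    refine ⟨⟨φ.map_target hwt, ?_⟩, ?_⟩
    · show φ (φ.symm _) ∈ sq_HALF ε
      rw [φ.right_inv hwt]
      exact ht
    · rw [hcl _ (φ.map_target hwt), φ.right_inv hwt, not_le]
      simp only [add_im, mul_im, ofReal_re, neg_im, I_im, ofReal_im, neg_re, I_re, neg_zero, mul_zero, add_zero]
      linarith

end Pool.Agent.Helper65.PI
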