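import Pool.Agent.Helper65.PI.St

set_option autoImplicit false

/-!
# The combinations which are holomorphic outside and inside the inclusion
-/

open Set Filter Topology MeasureTheory Complex
open scoped ContDiff ComplexConjugate

namespace Pool.Agent.Helper65.PI

namespace HOLaux

private theorem integrable_mul' (Ω : Set ℂ) (hΩ : IsOpen Ω) (a u : ℂ → ℝ) (ha : Continuous a)
    (hc : HasCompactSupport a) (hs : tsupport a ⊆ Ω) (hu : ContinuousOn u Ω) :
    Integrable (fun z => a z * u z) := by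
  have h1 : tsupport (fun z => a z * u z) ⊆ tsupport a := by
    apply closure_mono
    intro z hz h0
    exact hz (by simp [h0])
  have h2 : Continuous (fun z => a z * u z) :=
    (ha.continuousOn.mul hu).continuous_of_tsupport_subset hΩ (h1.trans hs)
  exact h2.integrable_of_hasCompactSupport (hc.mul_right)

private theorem key (Ω V D : Set ℂ) (k s : ℝ) (u v : ℂ → ℝ) (hΩ : IsOpen Ω) (hV : V ⊆ Ω)
    (hs : s ≠ 0) (hcond : ∀ z ∈ V, cond D k z = s) (h : IsPotential Ω D k u v) (φ : ℂ → ℝ)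
    (hφ : ContDiff ℝ ∞ φ) (hc : HasCompactSupport φ) (ht : tsupport φ ⊆ V) :
    ∫ z, ((fderiv ℝ φ z 1 : ℂ) + I * (fderiv ℝ φ z I : ℂ)) *
      ((u z : ℂ) + I * ((v z / s : ℝ) : ℂ)) = 0 := by
  obtain ⟨g, -, hgu, hgv⟩ := h.grad
  have htΩ : tsupport φ ⊆ Ω := ht.trans hV
  have hdc : ∀ w : ℂ, Continuous (fun z => fderiv ℝ φ z w) := fun w =>
    (hφ.continuous_fderiv (by simp)).clm_apply continuous_const
  have hdc2 : ∀ w : ℂ, HasCompactSupport (fun z => fderiv ℝ φ z w) := fun w =>
    hc.fderiv_apply (𝕜 := ℝ) w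
  have hdc3 : ∀ w : ℂ, tsupport (fun z => fderiv ℝ φ z w) ⊆ Ω := fun w =>
    (tsupport_fderiv_apply_subset ℝ w).trans htΩ
  have hiu : ∀ w : ℂ, Integrable (fun z => fderiv ℝ φ z w * u z) := fun w =>
    integrable_mul' Ω hΩ _ _ (hdc w) (hdc2 w) (hdc3 w) h.cont_u
  have hiv : ∀ w : ℂ, Integrable (fun z => fderiv ℝ φ z w * v z) := fun w =>
    integrable_mul' Ω hΩ _ _ (hdc w) (hdc2 w) (hdc3 w) h.cont_v
  obtain ⟨hu1, hu2⟩ := hgu φ hφ hc htΩ
  obtain ⟨hv1, hv2⟩ := hgv φ hφ hc htΩ
  have hz0 : ∀ z, z ∉ V → φ z = 0 := fun z hz => image_eq_zero_of_notMem_tsupport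
    (fun hz' => hz (ht hz'))
  have e1 : ∀ z, φ z * ((cond D k z : ℂ) * (I * g z)).re = -s * (φ z * (g z).im) := by
    intro z
    by_cases hz : z ∈ V
    · rw [hcond z hz]
      simp
      ring
    · rw [hz0 z hz]
      simp
  have e2 : ∀ z, φ z * ((cond D k z : ℂ) * (I * g z)).im = s * (φ z * (g z).re) := by
    intro z
    by_cases hz : z ∈ V
    · rw [hcond z hz]
      simp
      ring
    · rw [hz0 z hz]
      simp
  simp only [e1] at hv1
  simp only [e2] at hv2
  rw [integral_const_mul] at hv1 hv2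
  have hsplit : ∀ z, ((fderiv ℝ φ z 1 : ℂ) + I * (fderiv ℝ φ z I : ℂ)) *
      ((u z : ℂ) + I * ((v z / s : ℝ) : ℂ)) =
      (((fderiv ℝ φ z 1 * u z - s⁻¹ * (fderiv ℝ φ z I * v z) : ℝ)) : ℂ) +
        I * (((fderiv ℝ φ z I * u z + s⁻¹ * (fderiv ℝ φ z 1 * v z) : ℝ)) : ℂ) := by
    intro z
    apply Complex.ext
    · simp
      field_simp
    · simp
      field_simp
      ring
  simp only [hsplit]
  have i1 : Integrable (fun z => fderiv ℝ φ z 1 * u z - s⁻¹ * (fderiv ℝ φ z I * v z)) :=
    (hiu 1).sub ((hiv I).const_mul _)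
  have i2 : Integrable (fun z => fderiv ℝ φ z I * u z + s⁻¹ * (fderiv ℝ φ z 1 * v z)) :=
    (hiu I).add ((hiv 1).const_mul _)
  have j1 : Integrable (fun z =>
      ((fderiv ℝ φ z 1 * u z - s⁻¹ * (fderiv ℝ φ z I * v z) : ℝ) : ℂ)) := i1.ofReal
  have j2 : Integrable (fun z => I *
      ((fderiv ℝ φ z I * u z + s⁻¹ * (fderiv ℝ φ z 1 * v z) : ℝ) : ℂ)) := i2.ofReal.const_mul I
  rw [integral_add j1 j2, integral_const_mul, integral_complex_ofReal,
    integral_complex_ofReal, integral_sub (hiu 1) ((hiv I).const_mul _),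
    integral_add (hiu I) ((hiv 1).const_mul _), integral_const_mul, integral_const_mul, hu1, hu2,
    hv1, hv2]
  have r1 : ∀ t : ℝ, -t - s⁻¹ * -(s * t) = 0 := by
    intro t
    field_simp
    ring
  have r2 : ∀ t : ℝ, -t + s⁻¹ * -(-s * t) = 0 := by
    intro t
    field_simp
    ring
  rw [r1, r2]
  simp

end HOLaux

open HOLaux in
theorem hol (hw : StWEYL) : StHOL := by
  intro Ω D k u v hΩ hD hDΩ hk h
  constructor
  · apply hw
    · exact hΩ.sdiff isClosed_closure
    · have hu : ContinuousOn u (Ω \ closure D) := h.cont_u.mono diff_subset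
      have hv : ContinuousOn v (Ω \ closure D) := h.cont_v.mono diff_subset
      exact (continuous_ofReal.comp_continuousOn hu).add
        (continuousOn_const.mul (continuous_ofReal.comp_continuousOn hv))
    · intro φ hφ hc ht
      have := key Ω (Ω \ closure D) D k 1 u v hΩ diff_subset one_ne_zero (by
        intro z hz
        have hzD : z ∉ D := fun hz' => hz.2 (subset_closure hz')
        simp [cond, hzD]) h φ hφ hc ht
      simpa [FF] using this
  · apply hw
    · exact hD
    · have hu : ContinuousOn u D := h.cont_u.mono hDΩ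
      have hv : ContinuousOn v D := h.cont_v.mono hDΩ
      exact (continuous_ofReal.comp_continuousOn hu).add
        (continuousOn_const.mul (continuous_ofReal.comp_continuousOn (hv.div_const k)))
    · intro φ hφ hc ht
      exact key Ω D D k k u v hΩ hDΩ hk.ne' (by
        intro z hz
        simp [cond, hz]) h φ hφ hc ht

end Pool.Agent.Helper65.PI
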