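import Pool.Agent.Helper65.PI.St

/-!
# Planar inclusions: an admissible inclusion is the interior of its closure
-/

set_option autoImplicit false

open Set Filter Topology

namespace Pool.Agent.Helper65.PI

theorem int (hh : StHALF) : StINT := by
  intro Ω D hA
  have hA' : Admissible univ D :=
    { isOpen := hA.isOpen
      conn := hA.conn
      compact := hA.compact
      sub := subset_univ _
      front := hA.front
      smooth := hA.smooth }
  apply Subset.antisymm
  · intro p hp
    by_contra hpD
    have hpf : p ∈ frontier D := by
      rw [hA.isOpen.frontier_eq]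
      exact ⟨interior_subset hp, hpD⟩
    obtain ⟨V, hVo, hpV, -, -, -, hV⟩ :=
      hh univ D ∅ hA' isClosed_empty p hpf (notMem_empty p) isOpen_univ
    have hcl := hV p ⟨hpV, hpf⟩
    rw [mem_closure_iff] at hcl
    obtain ⟨q, hq, hqV, hqD⟩ := hcl (interior (closure D)) isOpen_interior hp
    exact hqD (interior_subset hq)
  · exact hA.isOpen.subset_interior_iff.2 subset_closure

end Pool.Agent.Helper65.PI
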