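import Pool.Agent.Helper65.PI.Defs

/-!
# Planar inclusions: the statements of the modules
-/

set_option autoImplicit false

open Set Filter Topology MeasureTheory Complex
open scoped ContDiff ComplexConjugate

namespace Pool.Agent.Helper65.PI

/-- `u + i v` -/
noncomputable def FF (u v : ℂ → ℝ) (z : ℂ) : ℂ := (u z : ℂ) + I * (v z : ℂ)

/-- `u + i v / k` -/
noncomputable def HH (k : ℝ) (u v : ℂ → ℝ) (z : ℂ) : ℂ := (u z : ℂ) + I * ((v z / k : ℝ) : ℂ)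

/-- Weyl's lemma for the Cauchy-Riemann operator -/
def StWEYL : Prop := ∀ (V : Set ℂ) (f : ℂ → ℂ), IsOpen V → ContinuousOn f V →
  (∀ φ : ℂ → ℝ, ContDiff ℝ ∞ φ → HasCompactSupport φ → tsupport φ ⊆ V →
    ∫ z, ((fderiv ℝ φ z 1 : ℂ) + I * (fderiv ℝ φ z I : ℂ)) * f z = 0) →
  DifferentiableOn ℂ f V

/-- the combinations which are holomorphic outside and inside the inclusion -/
def StHOL : Prop := ∀ (Ω D : Set ℂ) (k : ℝ) (u v : ℂ → ℝ), IsOpen Ω → IsOpen D → D ⊆ Ω →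
  0 < k → IsPotential Ω D k u v →
  DifferentiableOn ℂ (FF u v) (Ω \ closure D) ∧ DifferentiableOn ℂ (HH k u v) D

/-- holomorphic extension when a complex combination of the potentials is holomorphic in `D` -/
def StEXT : Prop := ∀ (Ω D : Set ℂ) (k : ℝ) (u v : Fin 2 → ℂ → ℝ) (lam : ℂ), IsOpen Ω →
  IsOpen D → D ⊆ Ω → 0 < k → (∀ j, IsPotential Ω D k (u j) (v j)) →
  DifferentiableOn ℂ (fun z => (u 0 z : ℂ) + lam * (u 1 z : ℂ)) D →
  DifferentiableOn ℂ (fun z => FF (u 0) (v 0) z + lam * FF (u 1) (v 1) z) Ω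

/-- maximum principle for `g₁ + conj g₂` -/
def StMAX : Prop := ∀ (V : Set ℂ) (g₁ g₂ : ℂ → ℂ), IsOpen V → Bornology.IsBounded V →
  ContinuousOn g₁ (closure V) → ContinuousOn g₂ (closure V) →
  DifferentiableOn ℂ g₁ V → DifferentiableOn ℂ g₂ V → ∀ (a : ℂ) (M : ℝ),
  (∀ z ∈ frontier V, (a * (g₁ z + conj (g₂ z))).re ≤ M) →
  ∀ z ∈ V, (a * (g₁ z + conj (g₂ z))).re ≤ M

/-- a constant may be added to the stream function -/
def StSHIFT : Prop := ∀ (Ω D : Set ℂ) (k : ℝ) (u v : ℂ → ℝ) (c : ℝ), IsOpen Ω →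
  IsPotential Ω D k u v → IsPotential Ω D k u (fun z => v z + c)

/-- the complement of an inclusion is connected -/
def StCONN : Prop := ∀ (Ω D : Set ℂ), IsOpen Ω → IsPreconnected Ω → Admissible Ω D →
  IsPreconnected (Ω \ closure D)

/-- an admissible inclusion is the interior of its closure -/
def StINT : Prop := ∀ (Ω D : Set ℂ), Admissible Ω D → interior (closure D) = D

/-- near a boundary point of an admissible inclusion which is not in the closed set `C`, the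
outside of the inclusion is connected -/
def StHALF : Prop := ∀ (Ω D C : Set ℂ), Admissible Ω D → IsClosed C → ∀ p ∈ frontier D, p ∉ C →
  IsOpen Ω → ∃ V : Set ℂ, IsOpen V ∧ p ∈ V ∧ V ⊆ Ω ∧ Disjoint V C ∧
    IsPreconnected (V \ closure D) ∧ ∀ q ∈ V ∩ frontier D, q ∈ closure (V \ closure D)

/-- a holomorphic function with zero boundary values vanishes near the boundary -/
def StNEAR : Prop := ∀ (Ω C : Set ℂ) (Z : ℂ → ℂ), IsOpen Ω → Bornology.IsBounded Ω →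
  SmoothBoundary Ω → IsCompact C → C ⊆ Ω → DifferentiableOn ℂ Z (Ω \ C) →
  (∀ ζ ∈ frontier Ω, Tendsto Z (𝓝[Ω] ζ) (𝓝 0)) →
  ∃ C' : Set ℂ, IsCompact C' ∧ C' ⊆ Ω ∧ C ⊆ C' ∧ ∀ z ∈ Ω \ C', Z z = 0

/-- the data of the second combination for the first inclusion -/
def StQD : Prop := ∀ (Ω D : Set ℂ) (k : ℝ) (u v : Fin 2 → ℂ → ℝ) (lam : ℂ), IsOpen Ω →
  Admissible Ω D → 0 < k → (∀ j, IsPotential Ω D k (u j) (v j)) →
  DifferentiableOn ℂ (fun z => (u 0 z : ℂ) + lam * (u 1 z : ℂ)) D →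
  ∃ κ : ℂ, ∀ z ∈ closure D, FF (u 0) (v 0) z + conj lam * FF (u 1) (v 1) z =
    ((1 - k) / (1 + k) : ℝ) * conj (FF (u 0) (v 0) z + lam * FF (u 1) (v 1) z) + κ

/-- the second inclusion: if the first combination agrees outside `D'` with a holomorphic function
of `Ω`, then also inside, and the interior potentials are conformal too -/
def StQP : Prop := ∀ (Ω D : Set ℂ) (k : ℝ) (u v : Fin 2 → ℂ → ℝ) (lam : ℂ) (P : ℂ → ℂ),
  IsOpen Ω → Admissible Ω D → 0 < k → k ≠ 1 → (∀ j, IsPotential Ω D k (u j) (v j)) →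
  DifferentiableOn ℂ P Ω →
  (∀ z ∈ Ω \ D, FF (u 0) (v 0) z + lam * FF (u 1) (v 1) z = P z) →
  (∀ z ∈ Ω, FF (u 0) (v 0) z + lam * FF (u 1) (v 1) z = P z) ∧
  ∃ κ : ℂ, ∀ z ∈ closure D, FF (u 0) (v 0) z + conj lam * FF (u 1) (v 1) z =
    ((1 - k) / (1 + k) : ℝ) * conj (P z) + κ

/-- the setting of the last part: `P` is holomorphic and not constant in `Ω`, `Q` is holomorphic
outside `D` and equal to `c conj P + κ` on the closure of `D`, similarly `Q'`, and `Q = Q'` outside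
a compact set -/
structure Setup (Ω D D' : Set ℂ) (P Q Q' : ℂ → ℂ) (c : ℝ) (κ κ' : ℂ) (C : Set ℂ) : Prop where
  open_Ω : IsOpen Ω
  conn_Ω : IsConnected Ω
  bdd_Ω : Bornology.IsBounded Ω
  adm : Admissible Ω D
  adm' : Admissible Ω D'
  holP : DifferentiableOn ℂ P Ω
  nonconst : ¬ ∃ a : ℂ, ∀ z ∈ Ω, P z = a
  contQ : ContinuousOn Q Ω
  contQ' : ContinuousOn Q' Ω
  holQ : DifferentiableOn ℂ Q (Ω \ closure D)
  holQ' : DifferentiableOn ℂ Q' (Ω \ closure D')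
  c_ne : c ≠ 0
  eqD : ∀ z ∈ closure D, Q z = c * conj (P z) + κ
  eqD' : ∀ z ∈ closure D', Q' z = c * conj (P z) + κ'
  compC : IsCompact C
  subC : C ⊆ Ω
  near : ∀ z ∈ Ω \ C, Q z = Q' z

/-- the filled union of the two inclusions -/
def KK (Ω D D' : Set ℂ) (Q Q' : ℂ → ℂ) : Set ℂ :=
  Ω \ {z | z ∉ closure D ∧ z ∉ closure D' ∧ ∀ᶠ w in 𝓝 z, Q w = Q' w}

/-- the properties of the filled union -/
def StKK : Prop := ∀ (Ω D D' : Set ℂ) (P Q Q' : ℂ → ℂ) (c : ℝ) (κ κ' : ℂ) (C : Set ℂ),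
  Setup Ω D D' P Q Q' c κ κ' C →
  IsCompact (KK Ω D D' Q Q') ∧ closure D ⊆ KK Ω D D' Q Q' ∧ closure D' ⊆ KK Ω D D' Q Q' ∧
  (∀ z ∈ frontier (KK Ω D D' Q Q'), Q z = Q' z ∧ z ∉ D ∧ z ∉ D' ∧
    (z ∈ frontier D ∨ z ∈ frontier D'))

/-- a function whose multiple `c conj P + κ` is holomorphic on an open set: `P` is constant -/
def StRIG : Prop := ∀ (Ω V : Set ℂ) (P Q : ℂ → ℂ) (c : ℝ) (κ : ℂ), IsOpen Ω → IsPreconnected Ω →
  DifferentiableOn ℂ P Ω → IsOpen V → V.Nonempty → V ⊆ Ω → DifferentiableOn ℂ Q V → c ≠ 0 →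
  (∀ z ∈ V, Q z = c * conj (P z) + κ) → ∃ a : ℂ, ∀ z ∈ Ω, P z = a

/-- equal constants: the second inclusion is contained in the first -/
def StEQ : Prop := ∀ (Ω D D' : Set ℂ) (P Q Q' : ℂ → ℂ) (c : ℝ) (κ : ℂ) (C : Set ℂ),
  Setup Ω D D' P Q Q' c κ κ C → D' ⊆ D

/-- different constants: the boundary of the second inclusion does not meet the boundary of the
filled union -/
def StNE : Prop := ∀ (Ω D D' : Set ℂ) (P Q Q' : ℂ → ℂ) (c : ℝ) (κ κ' : ℂ) (C : Set ℂ),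
  Setup Ω D D' P Q Q' c κ κ' C → κ ≠ κ' → frontier D' ∩ frontier (KK Ω D D' Q Q') = ∅

/-- the last part -/
def StTOP : Prop := ∀ (Ω D D' : Set ℂ) (P Q Q' : ℂ → ℂ) (c : ℝ) (κ κ' : ℂ) (C : Set ℂ),
  Setup Ω D D' P Q Q' c κ κ' C → D = D'

/-- the main theorem -/
def StMAIN : Prop := ∀ (Ω D D' : Set ℂ) (k : ℝ) (u v u' v' : Fin 2 → ℂ → ℝ) (lam : ℂ),
  IsOpen Ω → IsConnected Ω → Bornology.IsBounded Ω → SmoothBoundary Ω → 0 < k → k ≠ 1 →
  Admissible Ω D → Admissible Ω D' → (∀ j, IsPotential Ω D k (u j) (v j)) →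
  (∀ j, IsPotential Ω D' k (u' j) (v' j)) → (∀ j, SameData Ω (u j) (v j) (u' j) (v' j)) →
  DifferentiableOn ℂ (fun z => (u 0 z : ℂ) + lam * (u 1 z : ℂ)) D →
  (∃ x ∈ D, ∃ y ∈ D, (u 0 x : ℂ) + lam * (u 1 x : ℂ) ≠ (u 0 y : ℂ) + lam * (u 1 y : ℂ)) →
  D = D'

end Pool.Agent.Helper65.PI
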