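import Mathlib
import Pool.Agent.Helper65.PI.St

/-!
# Planar inclusions: the filled union of the two inclusions
-/

set_option autoImplicit false

open Set Filter Topology MeasureTheory Complex
open scoped ContDiff ComplexConjugate

namespace Pool.Agent.Helper65.PI

theorem kk : StKK := by
  intro Ω D D' P Q Q' c κ κ' C hS
  set O : Set ℂ := {z | z ∉ closure D ∧ z ∉ closure D' ∧ ∀ᶠ w in 𝓝 z, Q w = Q' w} with hO
  have hKdef : KK Ω D D' Q Q' = Ω \ O := rfl
  have hDΩ : closure D ⊆ Ω := hS.adm.sub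
  have hDΩ' : closure D' ⊆ Ω := hS.adm'.sub
  have hOopen : IsOpen O := by
    have h1 : IsOpen {z : ℂ | z ∉ closure D} := isClosed_closure.isOpen_compl
    have h2 : IsOpen {z : ℂ | z ∉ closure D'} := isClosed_closure.isOpen_compl
    have h3 : IsOpen {z : ℂ | ∀ᶠ w in 𝓝 z, Q w = Q' w} := isOpen_setOfPred_eventually_nhds
    exact h1.inter (h2.inter h3)
  have hclD : closure D ⊆ KK Ω D D' Q Q' := fun z hz => ⟨hDΩ hz, fun h => h.1 hz⟩
  have hclD' : closure D' ⊆ KK Ω D D' Q Q' := fun z hz => ⟨hDΩ' hz, fun h => h.2.1 hz⟩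
  have hKeq : KK Ω D D' Q Q' = (C ∪ closure D ∪ closure D') \ O := by
    ext z
    constructor
    · rintro ⟨hz, hzO⟩
      refine ⟨?_, hzO⟩
      by_contra hcon
      simp only [mem_union, not_or] at hcon
      apply hzO
      refine ⟨hcon.1.2, hcon.2, ?_⟩
      have hop : IsOpen (Ω \ C) := hS.open_Ω.sdiff hS.compC.isClosed
      filter_upwards [hop.mem_nhds ⟨hz, hcon.1.1⟩] with w hw
      exact hS.near w hw
    · rintro ⟨hz, hzO⟩
      refine ⟨?_, hzO⟩
      rcases hz with (hz | hz) | hz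
      · exact hS.subC hz
      · exact hDΩ hz
      · exact hDΩ' hz
  have hcomp : IsCompact (KK Ω D D' Q Q') := by
    rw [hKeq]
    exact ((hS.compC.union hS.adm.compact).union hS.adm'.compact).diff hOopen
  refine ⟨hcomp, hclD, hclD', ?_⟩
  intro z hz
  have hzK : z ∈ KK Ω D D' Q Q' := hcomp.isClosed.frontier_subset hz
  have hzint : z ∉ interior (KK Ω D D' Q Q') := hz.2
  have hzΩ : z ∈ Ω := hzK.1
  have hzO : z ∉ O := hzK.2
  have hzD : z ∉ D := fun h => hzint
    (interior_maximal (subset_closure.trans hclD) hS.adm.isOpen h)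
  have hzD' : z ∉ D' := fun h => hzint
    (interior_maximal (subset_closure.trans hclD') hS.adm'.isOpen h)
  -- points of `O` near `z`
  have hfreq : ∃ᶠ w in 𝓝 z, w ∈ O := by
    have h1 : ∃ᶠ w in 𝓝 z, w ∉ KK Ω D D' Q Q' := by
      have : z ∈ closure (KK Ω D D' Q Q')ᶜ := by
        rw [closure_compl]
        exact hzint
      exact mem_closure_iff_frequently.1 this
    have h2 : ∀ᶠ w in 𝓝 z, w ∈ Ω := hS.open_Ω.mem_nhds hzΩ
    refine (h1.and_eventually h2).mono ?_
    rintro w ⟨hw1, hw2⟩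
    by_contra hcon
    exact hw1 ⟨hw2, hcon⟩
  have hQ : Q z = Q' z := by
    have c1 : Tendsto Q (𝓝 z) (𝓝 (Q z)) := hS.contQ.continuousAt (hS.open_Ω.mem_nhds hzΩ)
    have c2 : Tendsto Q' (𝓝 z) (𝓝 (Q' z)) := hS.contQ'.continuousAt (hS.open_Ω.mem_nhds hzΩ)
    refine tendsto_nhds_unique_of_frequently_eq c1 c2 (hfreq.mono ?_)
    intro w hw
    exact hw.2.2.self_of_nhds
  refine ⟨hQ, hzD, hzD', ?_⟩
  by_contra hcon
  push_neg at hcon
  have hn1 : z ∉ closure D := by
    intro h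
    apply hcon.1
    rw [hS.adm.isOpen.frontier_eq]
    exact ⟨h, hzD⟩
  have hn2 : z ∉ closure D' := by
    intro h
    apply hcon.2
    rw [hS.adm'.isOpen.frontier_eq]
    exact ⟨h, hzD'⟩
  have hW : IsOpen (Ω \ closure D ∩ (Ω \ closure D')) :=
    (hS.open_Ω.sdiff isClosed_closure).inter (hS.open_Ω.sdiff isClosed_closure)
  obtain ⟨ε, hε, hball⟩ := Metric.isOpen_iff.1 hW z ⟨⟨hzΩ, hn1⟩, ⟨hzΩ, hn2⟩⟩
  have ha1 : AnalyticOnNhd ℂ Q (Metric.ball z ε) :=
    (hS.holQ.mono (fun w hw => (hball hw).1)).analyticOnNhd Metric.isOpen_ball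
  have ha2 : AnalyticOnNhd ℂ Q' (Metric.ball z ε) :=
    (hS.holQ'.mono (fun w hw => (hball hw).2)).analyticOnNhd Metric.isOpen_ball
  obtain ⟨w, hwO, hwb⟩ := (hfreq.and_eventually (Metric.ball_mem_nhds z hε)).exists
  have heq : EqOn Q Q' (Metric.ball z ε) :=
    ha1.eqOn_of_preconnected_of_eventuallyEq ha2 (convex_ball z ε).isPreconnected hwb hwO.2.2
  apply hzO
  refine ⟨hn1, hn2, ?_⟩
  filter_upwards [Metric.ball_mem_nhds z hε] with x hx
  exact heq hx

end Pool.Agent.Helper65.PI
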