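import Pool.Agent.Helper65.PI.St

/-!
# Planar inclusions: the main theorem
-/

set_option autoImplicit false

open Set Filter Topology MeasureTheory Complex
open scoped ContDiff ComplexConjugate

namespace Pool.Agent.Helper65.PI

private theorem cont_FF {Ω : Set ℂ} {u v : ℂ → ℝ} (hu : ContinuousOn u Ω)
    (hv : ContinuousOn v Ω) : ContinuousOn (FF u v) Ω := by
  unfold FF
  exact (continuous_ofReal.comp_continuousOn hu).add
    (continuousOn_const.mul (continuous_ofReal.comp_continuousOn hv))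

private theorem tend_FF {l : Filter ℂ} {u v u' v' : ℂ → ℝ}
    (hu : Tendsto (fun z => u z - u' z) l (𝓝 0)) (hv : Tendsto (fun z => v z - v' z) l (𝓝 0)) :
    Tendsto (fun z => FF u v z - FF u' v' z) l (𝓝 0) := by
  have h1 : Tendsto (fun z => ((u z - u' z : ℝ) : ℂ) + I * ((v z - v' z : ℝ) : ℂ)) l
      (𝓝 (((0 : ℝ) : ℂ) + I * ((0 : ℝ) : ℂ))) :=
    ((continuous_ofReal.tendsto 0).comp hu).add
      (((continuous_ofReal.tendsto 0).comp hv).const_mul I)
  have h2 : (((0 : ℝ) : ℂ) + I * ((0 : ℝ) : ℂ)) = 0 := by simp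
  rw [h2] at h1
  refine h1.congr fun z => ?_
  unfold FF
  push_cast
  ring

private theorem const_aux (u0 u1 v0 v1 : ℝ) (lam a q : ℂ)
    (h1 : ((u0 : ℂ) + I * (v0 : ℂ)) + lam * ((u1 : ℂ) + I * (v1 : ℂ)) = a)
    (h2 : ((u0 : ℂ) + I * (v0 : ℂ)) + conj lam * ((u1 : ℂ) + I * (v1 : ℂ)) = q) :
    (u0 : ℂ) + lam * (u1 : ℂ) = (((a.re + q.re) / 2 : ℝ) : ℂ) +
      I * (((a.im - q.im) / 2 : ℝ) : ℂ) := by
  have a1 := congrArg Complex.re h1
  have a2 := congrArg Complex.im h1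
  have b1 := congrArg Complex.re h2
  have b2 := congrArg Complex.im h2
  simp only [add_re, mul_re, add_im, mul_im, ofReal_re, ofReal_im, I_re, I_im, conj_re,
    conj_im] at a1 a2 b1 b2
  apply Complex.ext
  · simp only [add_re, mul_re, ofReal_re, ofReal_im, I_re, I_im]
    linarith
  · simp only [add_im, mul_im, ofReal_re, ofReal_im, I_re, I_im]
    linarith

private theorem nonempty_diff {Ω C : Set ℂ} (hΩ : IsOpen Ω) (hne : Ω.Nonempty)
    (hb : Bornology.IsBounded Ω) (hC : IsCompact C) (hCΩ : C ⊆ Ω) : (Ω \ C).Nonempty := by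
  by_contra hcon
  rw [not_nonempty_iff_eq_empty, diff_eq_empty] at hcon
  have hEq : Ω = C := Subset.antisymm hcon hCΩ
  have hclosed : IsClosed Ω := by
    rw [hEq]
    exact hC.isClosed
  have huniv : Ω = univ := IsClopen.eq_univ ⟨hclosed, hΩ⟩ hne
  rw [huniv] at hEq
  have hcu : IsCompact (univ : Set ℂ) := by
    rw [hEq]
    exact hC
  exact noncompact_univ ℂ hcu

theorem main (he : StEXT) (hh : StHOL) (hs : StSHIFT) (hn : StNEAR) (hc : StCONN) (hq : StQD)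
    (hp : StQP) (ht : StTOP) (hf : StHALF) : StMAIN := by
  intro Ω D D' k u v u' v' lam hΩ hconn hb hsm hk hk1 hD hD' hpot hpot' hdata hol hnc
  have hDΩ : D ⊆ Ω := subset_closure.trans hD.sub
  have hDΩ' : D' ⊆ Ω := subset_closure.trans hD'.sub
  choose hdu c hdv using hdata
  obtain ⟨v'', hv''⟩ : ∃ v'' : Fin 2 → ℂ → ℝ, v'' = fun j z => v' j z + c j := ⟨_, rfl⟩
  have hpot2 : ∀ j, IsPotential Ω D' k (u' j) (v'' j) := by
    intro j
    rw [hv'']
    exact hs Ω D' k (u' j) (v' j) (c j) hΩ (hpot' j)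
  have hdv2 : ∀ j, ∀ ζ ∈ frontier Ω, Tendsto (fun z => v j z - v'' j z) (𝓝[Ω] ζ) (𝓝 0) := by
    intro j ζ hζ
    have h1 := (hdv j ζ hζ).sub_const (c j)
    rw [sub_self] at h1
    refine h1.congr fun z => ?_
    rw [hv'']
    ring
  have hholF : ∀ j, DifferentiableOn ℂ (FF (u j) (v j)) (Ω \ closure D) := fun j =>
    (hh Ω D k (u j) (v j) hΩ hD.isOpen hDΩ hk (hpot j)).1
  have hholF' : ∀ j, DifferentiableOn ℂ (FF (u' j) (v'' j)) (Ω \ closure D') := fun j =>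
    (hh Ω D' k (u' j) (v'' j) hΩ hD'.isOpen hDΩ' hk (hpot2 j)).1
  have hcF : ∀ j, ContinuousOn (FF (u j) (v j)) Ω := fun j =>
    cont_FF (hpot j).cont_u (hpot j).cont_v
  have hcF' : ∀ j, ContinuousOn (FF (u' j) (v'' j)) Ω := fun j =>
    cont_FF (hpot2 j).cont_u (hpot2 j).cont_v
  have hnear : ∀ j, ∃ C' : Set ℂ, IsCompact C' ∧ C' ⊆ Ω ∧ closure D ∪ closure D' ⊆ C' ∧
      ∀ z ∈ Ω \ C', FF (u j) (v j) z - FF (u' j) (v'' j) z = 0 := by
    intro j
    refine hn Ω (closure D ∪ closure D') (fun z => FF (u j) (v j) z - FF (u' j) (v'' j) z) hΩ hb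
      hsm (hD.compact.union hD'.compact) (union_subset hD.sub hD'.sub) ?_ ?_
    · refine ((hholF j).mono ?_).sub ((hholF' j).mono ?_)
      · exact diff_subset_diff_right subset_union_left
      · exact diff_subset_diff_right subset_union_right
    · intro ζ hζ
      exact tend_FF (hdu j ζ hζ) (hdv2 j ζ hζ)
  choose C' hC1 hC2 hC3 hC4 using hnear
  obtain ⟨C, hCdef⟩ : ∃ C : Set ℂ, C = C' 0 ∪ C' 1 := ⟨_, rfl⟩
  have hCc : IsCompact C := by
    rw [hCdef]
    exact (hC1 0).union (hC1 1)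
  have hCΩ : C ⊆ Ω := by
    rw [hCdef]
    exact union_subset (hC2 0) (hC2 1)
  have hFeq : ∀ j : Fin 2, ∀ z ∈ Ω \ C, FF (u j) (v j) z = FF (u' j) (v'' j) z := by
    intro j z hz
    refine sub_eq_zero.1 (hC4 j z ⟨hz.1, fun hzC => hz.2 ?_⟩)
    rw [hCdef]
    fin_cases j
    · exact Or.inl hzC
    · exact Or.inr hzC
  -- the functions
  obtain ⟨P, hP⟩ : ∃ P : ℂ → ℂ, P = fun z => FF (u 0) (v 0) z + lam * FF (u 1) (v 1) z :=
    ⟨_, rfl⟩
  obtain ⟨P', hP'⟩ : ∃ P' : ℂ → ℂ, P' = fun z =>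
      FF (u' 0) (v'' 0) z + lam * FF (u' 1) (v'' 1) z := ⟨_, rfl⟩
  obtain ⟨Q, hQ⟩ : ∃ Q : ℂ → ℂ, Q = fun z => FF (u 0) (v 0) z + conj lam * FF (u 1) (v 1) z :=
    ⟨_, rfl⟩
  obtain ⟨Q', hQ'⟩ : ∃ Q' : ℂ → ℂ, Q' = fun z =>
      FF (u' 0) (v'' 0) z + conj lam * FF (u' 1) (v'' 1) z := ⟨_, rfl⟩
  have holP : DifferentiableOn ℂ P Ω := by
    rw [hP]
    exact he Ω D k u v lam hΩ hD.isOpen hDΩ hk hpot hol
  have holP' : DifferentiableOn ℂ P' (Ω \ closure D') := by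
    rw [hP']
    exact (hholF' 0).add ((hholF' 1).const_mul lam)
  have contP' : ContinuousOn P' Ω := by
    rw [hP']
    exact (hcF' 0).add (continuousOn_const.mul (hcF' 1))
  have hopen' : IsOpen (Ω \ closure D') := hΩ.sdiff isClosed_closure
  obtain ⟨z₀, hz₀⟩ := nonempty_diff hΩ hconn.nonempty hb hCc hCΩ
  have hz₀' : z₀ ∈ Ω \ closure D' := ⟨hz₀.1, fun h => hz₀.2 (by
    rw [hCdef]
    exact Or.inl (hC3 0 (Or.inr h)))⟩
  have hPeq : EqOn P' P (Ω \ closure D') := by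
    refine AnalyticOnNhd.eqOn_of_preconnected_of_eventuallyEq (holP'.analyticOnNhd hopen')
      ((holP.mono diff_subset).analyticOnNhd hopen')
      (hc Ω D' hΩ hconn.isPreconnected hD') hz₀' ?_
    have hmem : Ω \ C ∈ 𝓝 z₀ := (hΩ.sdiff hCc.isClosed).mem_nhds hz₀
    filter_upwards [hmem] with z hz
    rw [hP, hP']
    simp only [hFeq 0 z hz, hFeq 1 z hz]
  have hPeq2 : ∀ z ∈ Ω \ D', P' z = P z := by
    intro z hz
    by_cases hzc : z ∈ closure D'
    · have hfr : z ∈ frontier D' := by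
        rw [frontier, hD'.isOpen.interior_eq]
        exact ⟨hzc, hz.2⟩
      obtain ⟨V, hVo, hzV, hVΩ, -, -, hVcl⟩ := hf Ω D' ∅ hD' isClosed_empty z hfr
        (notMem_empty z) hΩ
      have hcl : z ∈ closure (Ω \ closure D') :=
        closure_mono (diff_subset_diff_left hVΩ) (hVcl z ⟨hzV, hfr⟩)
      have hne : (𝓝[Ω \ closure D'] z).NeBot := mem_closure_iff_nhdsWithin_neBot.1 hcl
      have t1 : Tendsto P' (𝓝[Ω \ closure D'] z) (𝓝 (P' z)) :=
        (contP' z hz.1).mono_left (nhdsWithin_mono z diff_subset)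
      have t2 : Tendsto P (𝓝[Ω \ closure D'] z) (𝓝 (P z)) :=
        (holP.continuousOn z hz.1).mono_left (nhdsWithin_mono z diff_subset)
      have t3 : Tendsto P' (𝓝[Ω \ closure D'] z) (𝓝 (P z)) := by
        refine t2.congr' ?_
        filter_upwards [self_mem_nhdsWithin] with w hw
        exact (hPeq hw).symm
      exact tendsto_nhds_unique t1 t3
    · exact hPeq ⟨hz.1, hzc⟩
  obtain ⟨hPall, κ', hκ'⟩ := hp Ω D' k u' v'' lam P hΩ hD' hk hk1 hpot2 holP (by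
    intro z hz
    have := hPeq2 z hz
    rw [hP'] at this
    exact this)
  obtain ⟨κ, hκ⟩ := hq Ω D k u v lam hΩ hD hk hpot hol
  refine ht Ω D D' P Q Q' ((1 - k) / (1 + k)) κ κ' C ?_
  refine ⟨hΩ, hconn, hb, hD, hD', holP, ?_, ?_, ?_, ?_, ?_, ?_, ?_, ?_, hCc, hCΩ, ?_⟩
  · rintro ⟨a, ha⟩
    obtain ⟨x, hx, y, hy, hxy⟩ := hnc
    apply hxy
    have key : ∀ z ∈ D, (u 0 z : ℂ) + lam * (u 1 z : ℂ) =
        (((a.re + (((1 - k) / (1 + k) : ℝ) * conj a + κ).re) / 2 : ℝ) : ℂ) +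
        I * (((a.im - (((1 - k) / (1 + k) : ℝ) * conj a + κ).im) / 2 : ℝ) : ℂ) := by
      intro z hz
      have e1 : P z = a := ha z (hDΩ hz)
      rw [hP] at e1
      have e2 := hκ z (subset_closure hz)
      rw [show FF (u 0) (v 0) z + lam * FF (u 1) (v 1) z = a from e1] at e2
      exact const_aux (u 0 z) (u 1 z) (v 0 z) (v 1 z) lam a _ e1 e2
    rw [key x hx, key y hy]
  · rw [hQ]
    exact (hcF 0).add (continuousOn_const.mul (hcF 1))
  · rw [hQ']
    exact (hcF' 0).add (continuousOn_const.mul (hcF' 1))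
  · rw [hQ]
    exact (hholF 0).add ((hholF 1).const_mul _)
  · rw [hQ']
    exact (hholF' 0).add ((hholF' 1).const_mul _)
  · refine div_ne_zero (sub_ne_zero.2 (Ne.symm hk1)) ?_
    linarith
  · intro z hz
    have h1 := hκ z hz
    rw [hQ, hP]
    exact h1
  · intro z hz
    have h1 := hκ' z hz
    rw [hQ']
    exact h1
  · intro z hz
    rw [hQ, hQ']
    simp only [hFeq 0 z hz, hFeq 1 z hz]

end Pool.Agent.Helper65.PI
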