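import Pool.Agent.Helper65.PI.St

/-!
# Planar inclusions: the maximum principle
-/

set_option autoImplicit false

open Set Filter Topology MeasureTheory Complex
open scoped ContDiff ComplexConjugate

namespace Pool.Agent.Helper65.PI

theorem max : StMAX := by
  intro V g₁ g₂ hV hb hc1 hc2 hd1 hd2 a M hM z hz
  have hre : ∀ w, (a * (g₁ w + conj (g₂ w))).re = (a * g₁ w + conj a * g₂ w).re := by
    intro w
    simp only [mul_re, add_re, add_im, conj_re, conj_im]
    ring
  have hd : DiffContOnCl ℂ (fun w => cexp (a * g₁ w + conj a * g₂ w)) V := by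
    refine ⟨?_, ?_⟩
    · exact ((hd1.const_mul a).add (hd2.const_mul (conj a))).cexp
    · exact ((continuousOn_const.mul hc1).add (continuousOn_const.mul hc2)).cexp
  have h := Complex.norm_le_of_forall_mem_frontier_norm_le hb hd (C := Real.exp M) (by
    intro w hw
    rw [Complex.norm_exp, ← hre]
    exact Real.exp_le_exp.2 (hM w hw)) (subset_closure hz)
  rw [Complex.norm_exp, ← hre] at h
  exact Real.exp_le_exp.1 h

end Pool.Agent.Helper65.PI
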