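import Pool.Agent.Helper65.PI.St

/-!
# Planar inclusions: different constants
-/

set_option autoImplicit false

open Set Filter Topology MeasureTheory Complex
open scoped ContDiff ComplexConjugate

namespace Pool.Agent.Helper65.PI

/-- the filled union is disjoint from the outside near a boundary point -/
theorem ne_loc {Ω D D' : Set ℂ} {P Q Q' : ℂ → ℂ} {c : ℝ} {κ κ' : ℂ} {C : Set ℂ}
    (hs : Setup Ω D D' P Q Q' c κ κ' C)
    (hcl : closure D' ⊆ KK Ω D D' Q Q')
    {V : Set ℂ} (hV : IsOpen V) (hVΩ : V ⊆ Ω) (hVD : Disjoint V (closure D))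
    (hpre : IsPreconnected (V \ closure D'))
    (hq : ∀ q ∈ V ∩ frontier D', q ∈ closure (V \ closure D'))
    {z : ℂ} (hz : z ∈ V) (hzK : z ∈ frontier (KK Ω D D' Q Q')) :
    ∀ q ∈ V ∩ frontier D', q ∈ frontier (KK Ω D D' Q Q') := by
  have hop : IsOpen (V \ closure D') := hV.sdiff isClosed_closure
  -- a point of the complement of `K` in `V`
  have h1 : z ∈ closure (KK Ω D D' Q Q')ᶜ := by
    rw [frontier_eq_closure_inter_closure] at hzK
    exact hzK.2
  obtain ⟨y, hyV, hyK⟩ := mem_closure_iff.1 h1 V hV hz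
  have hy2 : y ∉ closure D ∧ y ∉ closure D' ∧ ∀ᶠ w in 𝓝 y, Q w = Q' w := by
    by_contra hcon
    exact hyK ⟨hVΩ hyV, hcon⟩
  have hanQ : AnalyticOnNhd ℂ Q (V \ closure D') := by
    apply DifferentiableOn.analyticOnNhd _ hop
    apply hs.holQ.mono
    rintro w ⟨hw1, -⟩
    exact ⟨hVΩ hw1, fun h => (Set.disjoint_left.1 hVD) hw1 h⟩
  have hanQ' : AnalyticOnNhd ℂ Q' (V \ closure D') := by
    apply DifferentiableOn.analyticOnNhd _ hop
    apply hs.holQ'.mono
    rintro w ⟨hw1, hw2⟩
    exact ⟨hVΩ hw1, hw2⟩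
  have heq : EqOn Q Q' (V \ closure D') :=
    hanQ.eqOn_of_preconnected_of_eventuallyEq hanQ' hpre ⟨hyV, hy2.2.1⟩ hy2.2.2
  have hout : V \ closure D' ⊆ (KK Ω D D' Q Q')ᶜ := by
    rintro w hw hwK
    apply hwK.2
    refine ⟨fun h => (Set.disjoint_left.1 hVD) hw.1 h, hw.2, ?_⟩
    filter_upwards [hop.mem_nhds hw] with x hx using heq hx
  rintro q hqq
  rw [frontier_eq_closure_inter_closure]
  refine ⟨subset_closure (hcl (frontier_subset_closure hqq.2)), ?_⟩
  exact closure_mono hout (hq q hqq)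

/-- a holomorphic function on an open connected set whose values have constant real or imaginary
part in the sense of a nonopen image is constant -/
theorem ne_const {V : Set ℂ} {f : ℂ → ℂ} (hV : IsOpen V) (hc : IsPreconnected V)
    (hne : V.Nonempty) (hf : DifferentiableOn ℂ f V) {a : ℝ} (h : ∀ z ∈ V, (f z).re = a) :
    ∃ w, ∀ z ∈ V, f z = w := by
  have han : AnalyticOnNhd ℂ f V := hf.analyticOnNhd hV
  rcases han.is_constant_or_isOpen hc with h1 | h1
  · exact h1
  · exfalso
    have h2 := h1 V subset_rfl hV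
    obtain ⟨z0, hz0⟩ := hne
    have h3 : f '' V ∈ 𝓝 (f z0) := h2.mem_nhds ⟨z0, hz0, rfl⟩
    obtain ⟨ε, hε, hb⟩ := Metric.mem_nhds_iff.1 h3
    have h4 : f z0 + ((ε / 2 : ℝ) : ℂ) ∈ Metric.ball (f z0) ε := by
      rw [Metric.mem_ball, dist_eq_norm]
      have : f z0 + ((ε / 2 : ℝ) : ℂ) - f z0 = ((ε / 2 : ℝ) : ℂ) := by ring
      rw [this, Complex.norm_real, Real.norm_eq_abs, abs_of_pos (by linarith)]
      linarith
    obtain ⟨w, hw, hw2⟩ := hb h4
    have h5 := h w hw
    rw [hw2] at h5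
    have h6 : (f z0 + ((ε / 2 : ℝ) : ℂ)).re = (f z0).re + ε / 2 := by
      rw [Complex.add_re, Complex.ofReal_re]
    rw [h6, h z0 hz0] at h5
    linarith

theorem ne_disj (hm : StMAX) (hr : StRIG)
    {Ω D D' : Set ℂ} {P Q Q' : ℂ → ℂ} {c : ℝ} {κ κ' : ℂ} {C : Set ℂ}
    (hs : Setup Ω D D' P Q Q' c κ κ' C)
    (hfr : ∀ z ∈ frontier D', Q z = Q' z)
    (hd : closure D ⊆ (closure D')ᶜ) : False := by
  have hsubΩ : closure D' ⊆ Ω := hs.adm'.sub
  have hD'sub : D' ⊆ Ω := subset_closure.trans hsubΩ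
  have hQhol : DifferentiableOn ℂ Q D' := by
    apply hs.holQ.mono
    intro z hz
    exact ⟨hD'sub hz, fun h => hd h (subset_closure hz)⟩
  have hbd : Bornology.IsBounded D' := hs.bdd_Ω.subset hD'sub
  have hPc : ContinuousOn P (closure D') := (hs.holP.mono hsubΩ).continuousOn
  have hg1c : ContinuousOn (fun z => Q z - κ') (closure D') :=
    (hs.contQ.mono hsubΩ).sub continuousOn_const
  have hg2c : ContinuousOn (fun z => -(c : ℂ) * P z) (closure D') :=
    continuousOn_const.mul hPc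
  have hg1d : DifferentiableOn ℂ (fun z => Q z - κ') D' := hQhol.sub_const κ'
  have hg2d : DifferentiableOn ℂ (fun z => -(c : ℂ) * P z) D' :=
    (hs.holP.mono hD'sub).const_mul _
  have hW : ∀ z, (Q z - κ') + conj (-(c : ℂ) * P z) = Q z - κ' - c * conj (P z) := by
    intro z
    rw [map_mul, map_neg, Complex.conj_ofReal]
    ring
  have hzero : ∀ z ∈ frontier D', Q z - κ' - c * conj (P z) = 0 := by
    intro z hz
    rw [hfr z hz, hs.eqD' z (frontier_subset_closure hz)]
    ring
  have key : ∀ a : ℂ, ∀ z ∈ D', (a * (Q z - κ' - c * conj (P z))).re ≤ 0 := by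
    intro a z hz
    have h := hm D' _ _ hs.adm'.isOpen hbd hg1c hg2c hg1d hg2d a 0 ?_ z hz
    · rw [hW] at h
      exact h
    · intro w hw
      rw [hW, hzero w hw, mul_zero, Complex.zero_re]
  have hW0 : ∀ z ∈ D', Q z = c * conj (P z) + κ' := by
    intro z hz
    have e1 := key 1 z hz
    have e2 := key (-1) z hz
    have e3 := key I z hz
    have e4 := key (-I) z hz
    rw [one_mul] at e1
    rw [neg_one_mul, Complex.neg_re] at e2
    rw [Complex.I_mul_re] at e3
    rw [neg_mul, Complex.neg_re, Complex.I_mul_re] at e4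
    have : Q z - κ' - c * conj (P z) = 0 := by
      apply Complex.ext
      · rw [Complex.zero_re]; linarith
      · rw [Complex.zero_im]; linarith
    linear_combination this
  exact hs.nonconst (hr Ω D' P Q c κ' hs.open_Ω hs.conn_Ω.isPreconnected hs.holP
    hs.adm'.isOpen hs.adm'.conn.nonempty hD'sub hQhol hs.c_ne hW0)

theorem ne_in (hm : StMAX) (hr : StRIG) (hc : StCONN)
    {Ω D D' : Set ℂ} {P Q Q' : ℂ → ℂ} {c : ℝ} {κ κ' : ℂ} {C : Set ℂ}
    (hs : Setup Ω D D' P Q Q' c κ κ' C) (hκ : κ ≠ κ')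
    (hfr : ∀ z ∈ frontier D', Q z = Q' z)
    (hd : closure D ⊆ D') : False := by
  have hsubΩ : closure D' ⊆ Ω := hs.adm'.sub
  have hD'sub : D' ⊆ Ω := subset_closure.trans hsubΩ
  have hadm : Admissible D' D :=
    ⟨hs.adm.isOpen, hs.adm.conn, hs.adm.compact, hd, hs.adm.front, hs.adm.smooth⟩
  have hVo : IsOpen (D' \ closure D) := hs.adm'.isOpen.sdiff isClosed_closure
  have hVp : IsPreconnected (D' \ closure D) :=
    hc D' D hs.adm'.isOpen hs.adm'.conn.isPreconnected hadm
  have hout : ∀ q ∈ frontier D', q ∉ closure D := by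
    intro q hq h
    have h1 := hd h
    rw [hs.adm'.isOpen.frontier_eq] at hq
    exact hq.2 h1
  have hfcl : frontier D' ⊆ closure (D' \ closure D) := by
    intro q hq
    rw [mem_closure_iff]
    intro U hU hqU
    have h1 : q ∈ closure D' := frontier_subset_closure hq
    obtain ⟨y, hy1, hy2⟩ := mem_closure_iff.1 h1 (U \ closure D) (hU.sdiff isClosed_closure)
      ⟨hqU, hout q hq⟩
    exact ⟨y, hy1.1, hy2, hy1.2⟩
  have hVne : (D' \ closure D).Nonempty := by
    obtain ⟨q, hq⟩ := hs.adm'.front.nonempty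
    exact closure_nonempty_iff.1 ⟨q, hfcl hq⟩
  have hVsub : D' \ closure D ⊆ Ω \ closure D := fun z hz => ⟨hD'sub hz.1, hz.2⟩
  have hclV : closure (D' \ closure D) ⊆ Ω :=
    (closure_mono sdiff_subset).trans hsubΩ
  have hbd : Bornology.IsBounded (D' \ closure D) := hs.bdd_Ω.subset (fun z hz => hD'sub hz.1)
  have hδ : κ' - κ ≠ 0 := sub_ne_zero.2 (Ne.symm hκ)
  have hδc : conj (κ' - κ) ≠ 0 := by
    intro h
    exact hδ ((map_eq_zero _).1 h)
  have hcC : (c : ℂ) ≠ 0 := by
    exact_mod_cast hs.c_ne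
  let h1 : ℂ → ℂ := fun z => (Q z - κ) / (κ' - κ)
  let h2 : ℂ → ℂ := fun z => ((c : ℂ) / conj (κ' - κ)) * P z
  have hh1c : ContinuousOn h1 Ω := (hs.contQ.sub continuousOn_const).div_const _
  have hh2d : DifferentiableOn ℂ h2 Ω := hs.holP.const_mul _
  have hh2c : ContinuousOn h2 Ω := hh2d.continuousOn
  have hh1d : DifferentiableOn ℂ h1 (D' \ closure D) :=
    ((hs.holQ.mono hVsub).sub_const κ).div_const _
  have hconj2 : ∀ z, conj (h2 z) = c * conj (P z) / (κ' - κ) := by
    intro z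
    change conj (((c : ℂ) / conj (κ' - κ)) * P z) = _
    rw [map_mul, map_div₀, Complex.conj_conj, Complex.conj_ofReal]
    ring
  -- the boundary values
  have hbD : ∀ z ∈ frontier D, h1 z - conj (h2 z) = 0 := by
    intro z hz
    rw [hconj2]
    change (Q z - κ) / (κ' - κ) - _ = 0
    rw [hs.eqD z (frontier_subset_closure hz)]
    ring
  have hbD' : ∀ z ∈ frontier D', h1 z - conj (h2 z) = 1 := by
    intro z hz
    rw [hconj2]
    change (Q z - κ) / (κ' - κ) - _ = 1
    rw [hfr z hz, hs.eqD' z (frontier_subset_closure hz)]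
    rw [← sub_div, div_eq_one_iff_eq hδ]
    ring
  have hfV : frontier (D' \ closure D) ⊆ frontier D ∪ frontier D' := by
    have e : frontier (D' \ closure D) ⊆ frontier D' ∪ frontier ((closure D)ᶜ) := by
      rw [sdiff_eq]
      refine (frontier_inter_subset _ _).trans ?_
      exact union_subset_union inter_subset_left inter_subset_right
    refine e.trans ?_
    rw [frontier_compl]
    rintro z (hz | hz)
    · exact Or.inr hz
    · exact Or.inl (frontier_closure_subset hz)
  have him : ∀ z ∈ frontier (D' \ closure D), (h1 z - conj (h2 z)).im = 0 := by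
    intro z hz
    rcases hfV hz with h | h
    · rw [hbD z h, Complex.zero_im]
    · rw [hbD' z h, Complex.one_im]
  have hW : ∀ z, h1 z + conj (-h2 z) = h1 z - conj (h2 z) := by
    intro z
    rw [map_neg]
    ring
  have hcV1 : ContinuousOn h1 (closure (D' \ closure D)) := hh1c.mono hclV
  have hcV2 : ContinuousOn (fun z => -h2 z) (closure (D' \ closure D)) := (hh2c.mono hclV).neg
  have hdV2 : DifferentiableOn ℂ (fun z => -h2 z) (D' \ closure D) :=
    (hh2d.mono (fun z hz => hD'sub hz.1)).neg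
  have key : ∀ a : ℂ, a = I ∨ a = -I → ∀ z ∈ D' \ closure D,
      (a * (h1 z - conj (h2 z))).re ≤ 0 := by
    intro a ha z hz
    have h := hm (D' \ closure D) _ _ hVo hbd hcV1 hcV2 hh1d hdV2 a 0 ?_ z hz
    · rw [hW] at h
      exact h
    · intro w hw
      rw [hW]
      have h0 := him w hw
      rcases ha with rfl | rfl
      · rw [Complex.I_mul_re, h0, neg_zero]
      · rw [neg_mul, Complex.neg_re, Complex.I_mul_re, h0, neg_zero, neg_zero]
  have himV : ∀ z ∈ D' \ closure D, (h1 z - conj (h2 z)).im = 0 := by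
    intro z hz
    have e3 := key I (Or.inl rfl) z hz
    have e4 := key (-I) (Or.inr rfl) z hz
    rw [Complex.I_mul_re] at e3
    rw [neg_mul, Complex.neg_re, Complex.I_mul_re] at e4
    linarith
  -- `h1 + h2` is real on `V`
  have hreal : ∀ z ∈ D' \ closure D, (h1 z + h2 z).im = 0 := by
    intro z hz
    have e := himV z hz
    rw [Complex.sub_im, Complex.conj_im] at e
    rw [Complex.add_im]
    linarith
  have hconst : ∃ w : ℂ, ∀ z ∈ D' \ closure D, I * (h1 z + h2 z) = w := by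
    apply ne_const (a := 0) hVo hVp hVne
    · exact (hh1d.add (hh2d.mono (fun z hz => hD'sub hz.1))).const_mul I
    · intro z hz
      rw [Complex.I_mul_re, hreal z hz, neg_zero]
  obtain ⟨w, hw⟩ := hconst
  -- the constant
  have hsum : ∀ z ∈ D' \ closure D, h1 z + h2 z = -I * w := by
    intro z hz
    rw [← hw z hz, ← mul_assoc, neg_mul, Complex.I_mul_I, neg_neg, one_mul]
  have hWV : ∀ z ∈ D' \ closure D, (h1 z - conj (h2 z)).re = (-I * w).re - 2 * (h2 z).re := by
    intro z hz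
    rw [← hsum z hz, Complex.sub_re, Complex.conj_re, Complex.add_re]
    ring
  have hWcl : ∀ z ∈ closure (D' \ closure D),
      (h1 z - conj (h2 z)).re = (-I * w).re - 2 * (h2 z).re := by
    have hL : ContinuousOn (fun z => (h1 z - conj (h2 z)).re) (closure (D' \ closure D)) := by
      apply Complex.continuous_re.comp_continuousOn
      apply hcV1.sub
      exact Complex.continuous_conj.comp_continuousOn (hh2c.mono hclV)
    have hR : ContinuousOn (fun z => (-I * w).re - 2 * (h2 z).re)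
        (closure (D' \ closure D)) := by
      apply continuousOn_const.sub
      apply continuousOn_const.mul
      exact Complex.continuous_re.comp_continuousOn (hh2c.mono hclV)
    have := EqOn.of_subset_closure (s := D' \ closure D) (t := closure (D' \ closure D))
      (fun z hz => hWV z hz) hL hR subset_closure subset_rfl
    exact fun z hz => this hz
  have hre2 : ∀ z ∈ frontier D', (h2 z).re = ((-I * w).re - 1) / 2 := by
    intro z hz
    have e := hWcl z (hfcl hz)
    rw [hbD' z hz, Complex.one_re] at e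
    linarith
  -- the maximum principle for `h2` on `D'`
  have hbd' : Bornology.IsBounded D' := hs.bdd_Ω.subset hD'sub
  have hc1 : ContinuousOn h2 (closure D') := hh2c.mono hsubΩ
  have hc0 : ContinuousOn (fun _ : ℂ => (0 : ℂ)) (closure D') := continuousOn_const
  have hd1 : DifferentiableOn ℂ h2 D' := hh2d.mono hD'sub
  have hd0 : DifferentiableOn ℂ (fun _ : ℂ => (0 : ℂ)) D' := differentiableOn_const _
  have hup : ∀ z ∈ D', (h2 z).re ≤ ((-I * w).re - 1) / 2 := by
    intro z hz
    have h := hm D' _ _ hs.adm'.isOpen hbd' hc1 hc0 hd1 hd0 1 (((-I * w).re - 1) / 2) ?_ z hz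
    · rw [map_zero, add_zero, one_mul] at h
      exact h
    · intro x hx
      rw [map_zero, add_zero, one_mul, hre2 x hx]
  have hlo : ∀ z ∈ D', ((-I * w).re - 1) / 2 ≤ (h2 z).re := by
    intro z hz
    have h := hm D' _ _ hs.adm'.isOpen hbd' hc1 hc0 hd1 hd0 (-1) (-(((-I * w).re - 1) / 2)) ?_ z hz
    · rw [map_zero, add_zero, neg_one_mul, Complex.neg_re] at h
      linarith
    · intro x hx
      rw [map_zero, add_zero, neg_one_mul, Complex.neg_re, hre2 x hx]
  obtain ⟨b, hb⟩ := ne_const hs.adm'.isOpen hs.adm'.conn.isPreconnected hs.adm'.conn.nonempty hd1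
    (a := ((-I * w).re - 1) / 2) (fun z hz => le_antisymm (hup z hz) (hlo z hz))
  -- `P` is constant on `D'`
  have hP : ∀ z ∈ D', P z = b * conj (κ' - κ) / c := by
    intro z hz
    have e : ((c : ℂ) / conj (κ' - κ)) * P z = b := hb z hz
    rw [← e]
    field_simp
  apply hs.nonconst
  refine hr Ω D' P (fun _ => c * conj (b * conj (κ' - κ) / c) + κ) c κ hs.open_Ω
    hs.conn_Ω.isPreconnected hs.holP hs.adm'.isOpen hs.adm'.conn.nonempty hD'sub
    (differentiableOn_const _) hs.c_ne ?_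
  intro z hz
  rw [hP z hz]

theorem ne (hk : StKK) (hm : StMAX) (hr : StRIG) (hh : StHALF) (hc : StCONN) : StNE := by
  intro Ω D D' P Q Q' c κ κ' C hs hκ
  obtain ⟨hKc, hcD, hcD', hfK⟩ := hk Ω D D' P Q Q' c κ κ' C hs
  by_contra hne
  obtain ⟨z0, hz0⟩ := Set.nonempty_iff_ne_empty.2 hne
  -- (1)
  have hS : ∀ z ∈ frontier D, z ∈ frontier D' → z ∉ frontier (KK Ω D D' Q Q') := by
    intro z hz hz' hzK
    have e1 := hs.eqD z (frontier_subset_closure hz)
    have e2 := hs.eqD' z (frontier_subset_closure hz')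
    have e3 := (hfK z hzK).1
    rw [e1, e2] at e3
    exact hκ (add_left_cancel e3)
  have hS2 : ∀ z ∈ frontier D', z ∈ frontier (KK Ω D D' Q Q') → z ∉ closure D := by
    intro z hz hzK hzc
    by_cases hD : z ∈ D
    · exact (hfK z hzK).2.1 hD
    · apply hS z _ hz hzK
      rw [hs.adm.isOpen.frontier_eq]
      exact ⟨hzc, hD⟩
  -- (2)
  have hloc : ∀ z ∈ frontier D' ∩ frontier (KK Ω D D' Q Q'), ∃ V : Set ℂ, IsOpen V ∧ z ∈ V ∧
      ∀ q ∈ V ∩ frontier D', q ∈ frontier (KK Ω D D' Q Q') := by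
    rintro z ⟨hz, hzK⟩
    obtain ⟨V, hV, hzV, hVΩ, hVD, hpre, hq⟩ := hh Ω D' (closure D) hs.adm' isClosed_closure z hz
      (hS2 z hz hzK) hs.open_Ω
    exact ⟨V, hV, hzV, ne_loc hs hcD' hV hVΩ hVD hpre hq hzV hzK⟩
  have hall : frontier D' ⊆ frontier (KK Ω D D' Q Q') := by
    intro q hq
    by_contra hqK
    let U : Set ℂ := ⋃₀ {V : Set ℂ | IsOpen V ∧
      ∀ q ∈ V ∩ frontier D', q ∈ frontier (KK Ω D D' Q Q')}
    have hU : IsOpen U := isOpen_sUnion (fun V hV => hV.1)
    have hpc := hs.adm'.front.isPreconnected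
    have hcov : frontier D' ⊆ U ∪ (frontier (KK Ω D D' Q Q'))ᶜ := by
      intro x hx
      by_cases hxK : x ∈ frontier (KK Ω D D' Q Q')
      · left
        obtain ⟨V, hV, hxV, hVq⟩ := hloc x ⟨hx, hxK⟩
        exact ⟨V, ⟨hV, hVq⟩, hxV⟩
      · right
        exact hxK
    have hz0U : z0 ∈ U := by
      obtain ⟨V, hV, hxV, hVq⟩ := hloc z0 hz0
      exact ⟨V, ⟨hV, hVq⟩, hxV⟩
    obtain ⟨x, hx, hxU, hxK⟩ := hpc U (frontier (KK Ω D D' Q Q'))ᶜ hU
      isClosed_frontier.isOpen_compl hcov ⟨z0, hz0.1, hz0U⟩ ⟨q, hq, hqK⟩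
    obtain ⟨V, ⟨hV, hVq⟩, hxV⟩ := hxU
    exact hxK (hVq x ⟨hxV, hx⟩)
  -- (3)
  have hfr : ∀ z ∈ frontier D', Q z = Q' z := fun z hz => (hfK z (hall hz)).1
  have hdis : ∀ z ∈ frontier D', z ∉ closure D := fun z hz => hS2 z hz (hall hz)
  have hclc : IsPreconnected (closure D) := hs.adm.conn.isPreconnected.closure
  have hcov : closure D ⊆ D' ∪ (closure D')ᶜ := by
    intro z hz
    by_cases h1 : z ∈ D'
    · exact Or.inl h1
    · right
      intro h2
      apply hdis z _ hz
      rw [hs.adm'.isOpen.frontier_eq]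
      exact ⟨h2, h1⟩
  have hdisj : Disjoint D' (closure D')ᶜ :=
    Set.disjoint_left.2 (fun z hz h => h (subset_closure hz))
  rcases hclc.subset_or_subset hs.adm'.isOpen isClosed_closure.isOpen_compl hdisj hcov with h | h
  · exact ne_in hm hr hc hs hκ hfr h
  · exact ne_disj hm hr hs hfr h

end Pool.Agent.Helper65.PI
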