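import Mathlib
import Pool.Agent.Helper65.PI.St

/-!
# Planar inclusions: zero boundary values on a smooth boundary
-/

set_option autoImplicit false

open Set Filter Topology MeasureTheory Complex
open scoped ContDiff ComplexConjugate

namespace Pool.Agent.Helper65.PI

/-- exterior points near a smooth boundary point -/
theorem near_ext {Ω : Set ℂ} (hs : SmoothBoundary Ω) {ζ : ℂ} (hζ : ζ ∈ frontier Ω) {ε : ℝ}
    (hε : 0 < ε) : ∃ a : ℂ, dist a ζ < ε ∧ a ∉ closure Ω := by
  obtain ⟨φ, h1, h2, h3, -, -, h4⟩ := hs ζ hζ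
  have h0 : (0 : ℂ) ∈ φ.target := by
    rw [h3]; simp [box]
  have hsymm0 : φ.symm 0 = ζ := by rw [← h2]; exact φ.left_inv h1
  have hcont : ContinuousAt φ.symm 0 := φ.continuousAt_symm h0
  have hlin : Tendsto (fun t : ℝ => (-(t : ℂ) * I)) (𝓝[>] 0) (𝓝 0) := by
    have : Tendsto (fun t : ℝ => (-(t : ℂ) * I)) (𝓝 0) (𝓝 (-((0 : ℝ) : ℂ) * I)) := by
      apply Continuous.tendsto
      fun_prop
    rw [ofReal_zero, neg_zero, zero_mul] at this
    exact this.mono_left nhdsWithin_le_nhds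
  have ht1 : Tendsto (fun t : ℝ => φ.symm (-(t : ℂ) * I)) (𝓝[>] 0) (𝓝 ζ) := by
    have := hcont.tendsto.comp hlin
    rw [hsymm0] at this
    exact this
  have ht2 : ∀ᶠ t : ℝ in 𝓝[>] 0, dist (φ.symm (-(t : ℂ) * I)) ζ < ε :=
    ht1.eventually (Metric.ball_mem_nhds ζ hε)
  have ht3 : ∀ᶠ t : ℝ in 𝓝[>] 0, (-(t : ℂ) * I) ∈ φ.target :=
    hlin.eventually (φ.open_target.mem_nhds h0)
  have ht4 : ∀ᶠ t : ℝ in 𝓝[>] 0, 0 < t := eventually_mem_nhdsWithin
  obtain ⟨t, hta, htb, htc⟩ := (ht2.and (ht3.and ht4)).exists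
  refine ⟨φ.symm (-(t : ℂ) * I), hta, ?_⟩
  set a := φ.symm (-(t : ℂ) * I) with ha
  have hasrc : a ∈ φ.source := φ.map_target htb
  have hφa : φ a = -(t : ℂ) * I := φ.right_inv htb
  have hopen : IsOpen (φ.source ∩ φ ⁻¹' {w : ℂ | w.im < 0}) :=
    φ.continuousOn.isOpen_inter_preimage φ.open_source
      (isOpen_lt Complex.continuous_im continuous_const)
  intro hcl
  rw [mem_closure_iff] at hcl
  have hmem : a ∈ φ.source ∩ φ ⁻¹' {w : ℂ | w.im < 0} := by
    refine ⟨hasrc, ?_⟩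
    show (φ a).im < 0
    rw [hφa]
    simpa using htc
  obtain ⟨w, ⟨hw1, hw2⟩, hw3⟩ := hcl _ hopen hmem
  have h5 := (h4 w hw1).1 hw3
  have h6 : (φ w).im < 0 := hw2
  linarith

/-- vanishing near a boundary point -/
theorem near_loc {Ω C : Set ℂ} {Z : ℂ → ℂ} (ho : IsOpen Ω) (hb : Bornology.IsBounded Ω)
    (hs : SmoothBoundary Ω) (hC : IsCompact C) (hCΩ : C ⊆ Ω)
    (hZ : DifferentiableOn ℂ Z (Ω \ C))
    (hlim : ∀ ζ ∈ frontier Ω, Tendsto Z (𝓝[Ω] ζ) (𝓝 0)) {ζ : ℂ} (hζ : ζ ∈ frontier Ω) :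
    ∃ ε : ℝ, 0 < ε ∧ ∀ z ∈ Ω, dist z ζ < ε → Z z = 0 := by
  have hζΩ : ζ ∉ Ω := by
    intro h
    rw [ho.frontier_eq] at hζ
    exact hζ.2 h
  have hζC : ζ ∉ C := fun h => hζΩ (hCΩ h)
  obtain ⟨δ, hδ, hδ2⟩ := Metric.isOpen_iff.1 hC.isClosed.isOpen_compl ζ hζC
  have hε : 0 < δ / 4 := by positivity
  obtain ⟨a, ha1, ha2⟩ := near_ext hs hζ hε
  set r : ℝ := δ / 2 with hr
  have hr0 : 0 < r := by positivity
  set V : Set ℂ := Ω ∩ Metric.ball a r with hV
  have hVo : IsOpen V := ho.inter Metric.isOpen_ball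
  have hVb : Bornology.IsBounded V := hb.subset inter_subset_left
  have hclV : closure V ⊆ closure Ω := closure_mono inter_subset_left
  have hclB : closure V ⊆ Metric.closedBall a r :=
    (closure_mono inter_subset_right).trans Metric.closure_ball_subset_closedBall
  have hVC : ∀ w ∈ closure V, w ∉ C := by
    intro w hw hwC
    have h1 : dist w a ≤ r := Metric.mem_closedBall.1 (hclB hw)
    have h2 : dist w ζ < δ := by
      have := dist_triangle w a ζ
      linarith
    exact hδ2 (Metric.mem_ball.2 h2) hwC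
  set Zt : ℂ → ℂ := Ω.indicator Z with hZt
  have hop : IsOpen (Ω \ C) := ho.sdiff hC.isClosed
  have hcontZ : ∀ w ∈ closure V, ContinuousAt Zt w := by
    intro w hw
    by_cases hwΩ : w ∈ Ω
    · have h1 : ContinuousAt Z w :=
        (hZ.differentiableAt (hop.mem_nhds ⟨hwΩ, hVC w hw⟩)).continuousAt
      apply h1.congr
      filter_upwards [ho.mem_nhds hwΩ] with z hz
      rw [hZt, indicator_of_mem hz]
    · have hwf : w ∈ frontier Ω := by
        rw [ho.frontier_eq]
        exact ⟨hclV hw, hwΩ⟩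
      have h0 : Zt w = 0 := by rw [hZt, indicator_of_notMem hwΩ]
      rw [ContinuousAt, h0, ← nhdsWithin_univ, ← union_compl_self Ω, nhdsWithin_union]
      apply Tendsto.sup
      · apply (hlim w hwf).congr'
        filter_upwards [self_mem_nhdsWithin] with z hz
        rw [hZt, indicator_of_mem hz]
      · apply tendsto_const_nhds.congr'
        filter_upwards [self_mem_nhdsWithin] with z hz
        rw [hZt, indicator_of_notMem hz]
  have hcpt : IsCompact (closure V) := hVb.isCompact_closure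
  obtain ⟨M, hM⟩ := hcpt.exists_bound_of_continuousOn
    (f := Zt) (fun w hw => (hcontZ w hw).continuousWithinAt)
  have hane : ∀ w ∈ closure V, w - a ≠ 0 := by
    intro w hw h
    rw [sub_eq_zero] at h
    rw [h] at hw
    exact ha2 (hclV hw)
  have hkey : ∀ n : ℕ, ∀ z ∈ V, ‖Zt z / (z - a) ^ n‖ ≤ M / r ^ n := by
    intro n z hz
    have hd : DiffContOnCl ℂ (fun z => Zt z / (z - a) ^ n) V := by
      constructor
      · intro w hw
        apply DifferentiableAt.differentiableWithinAt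
        have h1 : DifferentiableAt ℂ Z w :=
          hZ.differentiableAt (hop.mem_nhds ⟨hw.1, hVC w (subset_closure hw)⟩)
        have h2 : DifferentiableAt ℂ Zt w := by
          apply h1.congr_of_eventuallyEq
          filter_upwards [ho.mem_nhds hw.1] with z hz
          rw [hZt, indicator_of_mem hz]
        exact h2.div (by fun_prop) (pow_ne_zero _ (hane w (subset_closure hw)))
      · intro w hw
        apply ContinuousAt.continuousWithinAt
        exact (hcontZ w hw).div (by fun_prop) (pow_ne_zero _ (hane w hw))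
    apply Complex.norm_le_of_forall_mem_frontier_norm_le hVb hd _ (subset_closure hz)
    intro w hw
    have hwc : w ∈ closure V := hw.1
    have hwV : w ∉ V := by
      rw [hVo.frontier_eq] at hw
      exact hw.2
    have hM0 : 0 ≤ M := (norm_nonneg _).trans (hM w hwc)
    by_cases hwΩ : w ∈ Ω
    · have hge : r ≤ ‖w - a‖ := by
        by_contra hlt
        rw [not_le] at hlt
        apply hwV
        refine ⟨hwΩ, ?_⟩
        rw [Metric.mem_ball, dist_eq_norm]
        exact hlt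
      rw [norm_div, norm_pow]
      exact div_le_div₀ hM0 (hM w hwc) (by positivity) (pow_le_pow_left₀ hr0.le hge n)
    · have h0 : Zt w = 0 := by rw [hZt, indicator_of_notMem hwΩ]
      show ‖Zt w / (w - a) ^ n‖ ≤ M / r ^ n
      rw [h0, zero_div, norm_zero]
      positivity
  refine ⟨δ / 4, hε, ?_⟩
  intro z hz hzd
  have hza : dist z a < r := by
    have h1 := dist_triangle z ζ a
    rw [dist_comm ζ a] at h1
    linarith
  have hzV : z ∈ V := ⟨hz, Metric.mem_ball.2 hza⟩
  have hna : 0 < ‖z - a‖ := norm_pos_iff.2 (hane z (subset_closure hzV))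
  have hbound : ∀ n : ℕ, ‖Z z‖ ≤ M * (‖z - a‖ / r) ^ n := by
    intro n
    have h1 := hkey n z hzV
    rw [hZt, indicator_of_mem hz, norm_div, norm_pow, div_le_iff₀ (by positivity)] at h1
    calc ‖Z z‖ ≤ M / r ^ n * ‖z - a‖ ^ n := h1
      _ = M * (‖z - a‖ / r) ^ n := by
          rw [div_pow ‖z - a‖ r n, div_mul_eq_mul_div, mul_div_assoc]
  have hlt1 : ‖z - a‖ / r < 1 := by
    rw [div_lt_one hr0, ← dist_eq_norm]
    exact hza
  have ht : Tendsto (fun n : ℕ => M * (‖z - a‖ / r) ^ n) atTop (𝓝 (M * 0)) :=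
    (tendsto_pow_atTop_nhds_zero_of_lt_one (by positivity) hlt1).const_mul M
  rw [mul_zero] at ht
  have hle : ‖Z z‖ ≤ 0 := ge_of_tendsto' ht hbound
  exact norm_le_zero_iff.1 hle

theorem near : StNEAR := by
  intro Ω C Z ho hb hs hC hCΩ hZ hlim
  have hloc := fun (ζ : ℂ) (hζ : ζ ∈ frontier Ω) => near_loc ho hb hs hC hCΩ hZ hlim hζ
  choose! e he1 he2 using hloc
  set U : Set ℂ := ⋃ ζ ∈ frontier Ω, Metric.ball ζ (e ζ) with hU
  have hUo : IsOpen U := isOpen_biUnion fun ζ _ => Metric.isOpen_ball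
  refine ⟨(closure Ω \ U) ∪ C, ?_, ?_, subset_union_right, ?_⟩
  · exact (hb.isCompact_closure.diff hUo).union hC
  · apply union_subset _ hCΩ
    rintro z ⟨hz1, hz2⟩
    by_contra hzΩ
    apply hz2
    have hzf : z ∈ frontier Ω := by
      rw [ho.frontier_eq]
      exact ⟨hz1, hzΩ⟩
    exact mem_biUnion hzf (Metric.mem_ball_self (he1 z hzf))
  · rintro z ⟨hz1, hz2⟩
    have hzU : z ∈ U := by
      by_contra h
      exact hz2 (Or.inl ⟨subset_closure hz1, h⟩)
    rw [hU, mem_iUnion₂] at hzU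
    obtain ⟨ζ, hζ, hzζ⟩ := hzU
    exact he2 ζ hζ z hz1 (Metric.mem_ball.1 hzζ)

end Pool.Agent.Helper65.PI
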