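import Pool.Agent.Helper65.PI.St

/-!
# Planar inclusions: the data of the second combination (module QD)
-/

set_option autoImplicit false

open Set Filter Topology MeasureTheory Complex
open scoped ContDiff ComplexConjugate

namespace Pool.Agent.Helper65.PI

/-- `q` and `conj q` holomorphic on a connected open set: `q` is constant -/
theorem const_of_conj {D : Set ℂ} (hD : IsOpen D) (hc : IsPreconnected D) {q : ℂ → ℂ}
    (hq : DifferentiableOn ℂ q D) (hq' : DifferentiableOn ℂ (fun z => conj (q z)) D) :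
    ∃ q0 : ℂ, ∀ z ∈ D, q z = q0 := by
  rcases D.eq_empty_or_nonempty with h | ⟨x, hx⟩
  · subst h
    exact ⟨0, by simp⟩
  refine ⟨q x, fun z hz => ?_⟩
  refine hD.is_const_of_deriv_eq_zero hc hq ?_ hz hx
  intro w hw
  have h1 : HasDerivAt q (deriv q w) w := ((hq w hw).differentiableAt (hD.mem_nhds hw)).hasDerivAt
  have h2 : HasDerivAt (fun z => conj (q z)) (deriv (fun z => conj (q z)) w) w :=
    ((hq' w hw).differentiableAt (hD.mem_nhds hw)).hasDerivAt
  set a := deriv q w with ha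
  set b := deriv (fun z => conj (q z)) w with hb
  have h3 : HasFDerivAt (fun z => conj (q z))
      ((Complex.conjCLE : ℂ →L[ℝ] ℂ).comp
        ((ContinuousLinearMap.toSpanSingleton ℂ a).restrictScalars ℝ)) w := by
    have h4 : HasFDerivAt q ((ContinuousLinearMap.toSpanSingleton ℂ a).restrictScalars ℝ) w :=
      h1.hasFDerivAt.restrictScalars ℝ
    exact (Complex.conjCLE : ℂ →L[ℝ] ℂ).hasFDerivAt.comp w h4
  have h5 : HasFDerivAt (fun z => conj (q z))
      ((ContinuousLinearMap.toSpanSingleton ℂ b).restrictScalars ℝ) w :=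
    h2.hasFDerivAt.restrictScalars ℝ
  have h6 := h3.unique h5
  have h7 := congrArg (fun L : ℂ →L[ℝ] ℂ => L 1) h6
  have h8 := congrArg (fun L : ℂ →L[ℝ] ℂ => L I) h6
  simp at h7 h8
  have h9 : conj a = 0 := by
    rw [← h7] at h8
    have : (2 * I) * conj a = 0 := by linear_combination -h8
    simpa using this
  have h10 : a = 0 := by simpa using h9
  simpa using h10

theorem FF_eq {k : ℝ} (hk : 0 < k) (u v : ℂ → ℝ) (z : ℂ) :
    FF u v z = ((1 + k) / 2 : ℝ) * HH k u v z + ((1 - k) / 2 : ℝ) * conj (HH k u v z) := by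
  have hk' : (k : ℂ) ≠ 0 := by exact_mod_cast hk.ne'
  simp only [FF, HH, map_add, map_mul, conj_I, conj_ofReal]
  push_cast
  field_simp
  ring

theorem HH_cont {Ω D : Set ℂ} {k : ℝ} {u v : ℂ → ℝ} (h : IsPotential Ω D k u v) :
    ContinuousOn (HH k u v) Ω := by
  have h1 : ContinuousOn (fun z => (u z : ℂ)) Ω := continuous_ofReal.comp_continuousOn h.cont_u
  have h2 : ContinuousOn (fun z => ((v z / k : ℝ) : ℂ)) Ω :=
    continuous_ofReal.comp_continuousOn (h.cont_v.div_const k)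
  exact h1.add (continuousOn_const.mul h2)

theorem PP_eq {k : ℝ} (hk : 0 < k) (u v : Fin 2 → ℂ → ℝ) (lam : ℂ) (z : ℂ) :
    FF (u 0) (v 0) z + lam * FF (u 1) (v 1) z =
      ((1 + k) / 2 : ℝ) * (HH k (u 0) (v 0) z + lam * HH k (u 1) (v 1) z) +
      ((1 - k) / 2 : ℝ) * conj (HH k (u 0) (v 0) z + conj lam * HH k (u 1) (v 1) z) := by
  rw [FF_eq hk, FF_eq hk]
  simp only [map_add, map_mul, conj_conj]
  ring

theorem QQ_eq {k : ℝ} (hk : 0 < k) (u v : Fin 2 → ℂ → ℝ) (lam : ℂ) (z : ℂ) :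
    FF (u 0) (v 0) z + conj lam * FF (u 1) (v 1) z =
      ((1 + k) / 2 : ℝ) * (HH k (u 0) (v 0) z + conj lam * HH k (u 1) (v 1) z) +
      ((1 - k) / 2 : ℝ) * conj (HH k (u 0) (v 0) z + lam * HH k (u 1) (v 1) z) := by
  rw [FF_eq hk, FF_eq hk]
  simp only [map_add, map_mul]
  ring

/-- if the second interior combination is constant on `D` then the formula of QD holds -/
theorem qform {Ω D : Set ℂ} {k : ℝ} {u v : Fin 2 → ℂ → ℝ} {lam : ℂ} (hcl : closure D ⊆ Ω)
    (hk : 0 < k) (hp : ∀ j, IsPotential Ω D k (u j) (v j)) {q0 : ℂ}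
    (hq : ∀ z ∈ D, HH k (u 0) (v 0) z + conj lam * HH k (u 1) (v 1) z = q0) :
    ∃ κ : ℂ, ∀ z ∈ closure D, FF (u 0) (v 0) z + conj lam * FF (u 1) (v 1) z =
      ((1 - k) / (1 + k) : ℝ) * conj (FF (u 0) (v 0) z + lam * FF (u 1) (v 1) z) + κ := by
  have hc : ContinuousOn (fun z => HH k (u 0) (v 0) z + conj lam * HH k (u 1) (v 1) z)
      (closure D) :=
    ((HH_cont (hp 0)).add (continuousOn_const.mul (HH_cont (hp 1)))).mono hcl
  have hq' : ∀ z ∈ closure D, HH k (u 0) (v 0) z + conj lam * HH k (u 1) (v 1) z = q0 := by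
    intro z hz
    have h1 : EqOn (fun z => HH k (u 0) (v 0) z + conj lam * HH k (u 1) (v 1) z)
        (fun _ => q0) D := fun w hw => hq w hw
    exact h1.of_subset_closure hc continuousOn_const subset_closure subset_rfl hz
  refine ⟨(2 * k / (1 + k) : ℝ) * q0, fun z hz => ?_⟩
  have hk1 : (1 + k : ℂ) ≠ 0 := by
    have : (1 + k : ℝ) ≠ 0 := by positivity
    exact_mod_cast this
  rw [QQ_eq hk, PP_eq hk, hq' z hz]
  simp only [map_add, map_mul, conj_conj, conj_ofReal]
  push_cast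
  field_simp
  ring

theorem qd (hh : StHOL) : StQD := by
  intro Ω D k u v lam hΩ hA hk hp hd
  have hD : D ⊆ Ω := subset_closure.trans hA.sub
  have hH : ∀ j, DifferentiableOn ℂ (HH k (u j) (v j)) D := fun j =>
    (hh Ω D k (u j) (v j) hΩ hA.isOpen hD hk (hp j)).2
  have h1 : DifferentiableOn ℂ (fun z => HH k (u 0) (v 0) z + conj lam * HH k (u 1) (v 1) z) D :=
    (hH 0).add ((hH 1).const_mul _)
  have h2 : DifferentiableOn ℂ
      (fun z => conj (HH k (u 0) (v 0) z + conj lam * HH k (u 1) (v 1) z)) D := by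
    have h3 : DifferentiableOn ℂ (fun z => 2 * ((u 0 z : ℂ) + lam * (u 1 z : ℂ)) -
        (HH k (u 0) (v 0) z + lam * HH k (u 1) (v 1) z)) D :=
      (hd.const_mul 2).sub ((hH 0).add ((hH 1).const_mul _))
    refine h3.congr fun z _ => ?_
    simp only [HH, map_add, map_mul, conj_I, conj_ofReal, conj_conj]
    ring
  obtain ⟨q0, hq0⟩ := const_of_conj hA.isOpen hA.conn.isPreconnected h1 h2
  exact qform hA.sub hk hp hq0

end Pool.Agent.Helper65.PI
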