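import Pool.Agent.Helper65.PI.Qd

/-!
# Planar inclusions: the second inclusion (module QP)
-/

set_option autoImplicit false

open Set Filter Topology MeasureTheory Complex
open scoped ContDiff ComplexConjugate

namespace Pool.Agent.Helper65.PI

/-- `StMAX` in all four directions: zero on the frontier implies zero inside -/
theorem zero_of_max (hm : StMAX) {V : Set ℂ} {g₁ g₂ : ℂ → ℂ} (hV : IsOpen V)
    (hb : Bornology.IsBounded V) (h1 : ContinuousOn g₁ (closure V))
    (h2 : ContinuousOn g₂ (closure V)) (h3 : DifferentiableOn ℂ g₁ V)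
    (h4 : DifferentiableOn ℂ g₂ V) (h0 : ∀ z ∈ frontier V, g₁ z + conj (g₂ z) = 0) :
    ∀ z ∈ V, g₁ z + conj (g₂ z) = 0 := by
  intro z hz
  have key : ∀ a : ℂ, (a * (g₁ z + conj (g₂ z))).re ≤ 0 := fun a =>
    hm V g₁ g₂ hV hb h1 h2 h3 h4 a 0 (fun w hw => by rw [h0 w hw]; simp) z hz
  set W := g₁ z + conj (g₂ z) with hW
  have k1 := key 1
  have k2 := key (-1)
  have k3 := key I
  have k4 := key (-I)
  simp at k1 k2 k3 k4
  apply Complex.ext
  · simp only [Complex.zero_re]; linarith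
  · simp only [Complex.zero_im]; linarith

theorem qp (hh : StHOL) (hm : StMAX) : StQP := by
  intro Ω D k u v lam P hΩ hA hk hk1 hp hP hPD
  have hD : D ⊆ Ω := subset_closure.trans hA.sub
  have hH : ∀ j, DifferentiableOn ℂ (HH k (u j) (v j)) D := fun j =>
    (hh Ω D k (u j) (v j) hΩ hA.isOpen hD hk (hp j)).2
  have hHc : ∀ j, ContinuousOn (HH k (u j) (v j)) (closure D) := fun j =>
    (HH_cont (hp j)).mono hA.sub
  have hPc : ContinuousOn P (closure D) := hP.continuousOn.mono hA.sub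
  have hin : ∀ z ∈ D, (((1 + k) / 2 : ℝ) * (HH k (u 0) (v 0) z + lam * HH k (u 1) (v 1) z) - P z) +
      conj (((1 - k) / 2 : ℝ) * (HH k (u 0) (v 0) z + conj lam * HH k (u 1) (v 1) z)) = 0 := by
    refine zero_of_max hm (V := D)
      (g₁ := fun z => ((1 + k) / 2 : ℝ) * (HH k (u 0) (v 0) z + lam * HH k (u 1) (v 1) z) - P z)
      (g₂ := fun z => ((1 - k) / 2 : ℝ) *
        (HH k (u 0) (v 0) z + conj lam * HH k (u 1) (v 1) z)) hA.isOpen
      (hA.compact.isBounded.subset subset_closure) ?_ ?_ ?_ ?_ ?_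
    · exact (continuousOn_const.mul ((hHc 0).add (continuousOn_const.mul (hHc 1)))).sub hPc
    · exact continuousOn_const.mul ((hHc 0).add (continuousOn_const.mul (hHc 1)))
    · exact (((hH 0).add ((hH 1).const_mul _)).const_mul _).sub (hP.mono hD)
    · exact ((hH 0).add ((hH 1).const_mul _)).const_mul _
    · intro z hz
      have hz1 : z ∈ Ω \ D := by
        refine ⟨hA.sub (frontier_subset_closure hz), ?_⟩
        rw [hA.isOpen.frontier_eq] at hz
        exact hz.2
      have h5 := hPD z hz1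
      rw [PP_eq hk] at h5
      simp only [map_mul, conj_ofReal]
      rw [← h5]
      ring
  have hall : ∀ z ∈ Ω, FF (u 0) (v 0) z + lam * FF (u 1) (v 1) z = P z := by
    intro z hz
    by_cases hzD : z ∈ D
    · have h6 := hin z hzD
      simp only [map_mul, conj_ofReal] at h6
      rw [PP_eq hk]
      linear_combination h6
    · exact hPD z ⟨hz, hzD⟩
  refine ⟨hall, ?_⟩
  have h1 : DifferentiableOn ℂ (fun z => HH k (u 0) (v 0) z + conj lam * HH k (u 1) (v 1) z) D :=
    (hH 0).add ((hH 1).const_mul _)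
  have hkk : ((1 - k : ℝ) : ℂ) ≠ 0 := by
    have : (1 - k : ℝ) ≠ 0 := sub_ne_zero.mpr hk1.symm
    exact_mod_cast this
  have h2 : DifferentiableOn ℂ
      (fun z => conj (HH k (u 0) (v 0) z + conj lam * HH k (u 1) (v 1) z)) D := by
    have h3 : DifferentiableOn ℂ (fun z => (2 / (1 - k : ℝ) : ℂ) * (P z -
        ((1 + k) / 2 : ℝ) * (HH k (u 0) (v 0) z + lam * HH k (u 1) (v 1) z))) D :=
      ((hP.mono hD).sub (((hH 0).add ((hH 1).const_mul _)).const_mul _)).const_mul _
    refine h3.congr fun z hz => ?_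
    have h6 := hin z hz
    rw [map_mul, conj_ofReal] at h6
    push_cast at h6 hkk ⊢
    field_simp
    linear_combination (2 : ℂ) * h6
  obtain ⟨q0, hq0⟩ := const_of_conj hA.isOpen hA.conn.isPreconnected h1 h2
  obtain ⟨κ, hκ⟩ := qform hA.sub hk hp hq0
  refine ⟨κ, fun z hz => ?_⟩
  rw [hκ z hz, hall z (hA.sub hz)]

end Pool.Agent.Helper65.PI
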