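import Pool.Agent.Helper65.PI.St

/-!
# Planar inclusions, module RIG
-/

set_option autoImplicit false

open Set Filter Topology MeasureTheory Complex
open scoped ContDiff ComplexConjugate

namespace Pool.Agent.Helper65.PI

theorem rig_aux {B : Set ℂ} (hB : IsOpen B) (hc : IsPreconnected B) (hne : B.Nonempty)
    (g : ℂ → ℂ) (hg : DifferentiableOn ℂ g B) (L : ℂ → ℝ) (w : ℂ) (hL : ∀ z : ℂ, ∀ t : ℝ,
      L (z + t * w) = L z + t) (h0 : ∀ z ∈ B, L (g z) = 0) : ∃ a : ℂ, ∀ z ∈ B, g z = a := by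
  have han : AnalyticOnNhd ℂ g B := hg.analyticOnNhd hB
  rcases han.is_constant_or_isOpen hc with h | h
  · exact h
  · exfalso
    have ho : IsOpen (g '' B) := h B Subset.rfl hB
    obtain ⟨z, hz⟩ := hne
    have hmem : g '' B ∈ 𝓝 (g z) := ho.mem_nhds (mem_image_of_mem g hz)
    have hcont : Tendsto (fun t : ℝ => g z + t * w) (𝓝 0) (𝓝 (g z)) := by
      have : Continuous (fun t : ℝ => g z + t * w) := by fun_prop
      have h2 := this.tendsto 0
      simpa using h2
    have hev : ∀ᶠ t : ℝ in 𝓝 0, g z + t * w ∈ g '' B := hcont.eventually hmem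
    have hev' : ∀ᶠ t : ℝ in 𝓝[≠] 0, g z + t * w ∈ g '' B := hev.filter_mono nhdsWithin_le_nhds
    obtain ⟨t, ht, htne⟩ := (hev'.and self_mem_nhdsWithin).exists
    obtain ⟨y, hy, hyt⟩ := ht
    have h3 := h0 y hy
    rw [hyt, hL, h0 z hz, zero_add] at h3
    exact htne h3

theorem rig : StRIG := by
  intro Ω V P Q c κ hΩ hcon hP hV hVne hVΩ hQ hc hEq
  obtain ⟨z0, hz0⟩ := hVne
  obtain ⟨r, hr, hball⟩ := Metric.isOpen_iff.1 hV z0 hz0
  set B := Metric.ball z0 r with hBdef
  have hBo : IsOpen B := Metric.isOpen_ball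
  have hBc : IsPreconnected B := (convex_ball z0 r).isPreconnected
  have hBn : B.Nonempty := ⟨z0, Metric.mem_ball_self hr⟩
  have hPB : DifferentiableOn ℂ P B := hP.mono (hball.trans hVΩ)
  have hcc : (c : ℂ) ≠ 0 := by exact_mod_cast hc
  have hconj : DifferentiableOn ℂ (fun z => conj (P z)) B := by
    have h1 : DifferentiableOn ℂ (fun z => (Q z - κ) / c) B :=
      ((hQ.mono hball).sub_const κ).div_const (c : ℂ)
    refine h1.congr fun z hz => ?_
    rw [hEq z (hball hz), add_sub_cancel_right, mul_div_cancel_left₀ _ hcc]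
  obtain ⟨a1, h1⟩ := rig_aux hBo hBc hBn (fun z => P z + conj (P z)) (hPB.add hconj) Complex.im I
    (by intro z t; simp) (by intro z _; simp)
  obtain ⟨a2, h2⟩ := rig_aux hBo hBc hBn (fun z => P z - conj (P z)) (hPB.sub hconj) Complex.re 1
    (by intro z t; simp) (by intro z _; simp)
  refine ⟨(a1 + a2) / 2, ?_⟩
  have h3 : ∀ z ∈ B, P z = (a1 + a2) / 2 := by
    intro z hz
    rw [← h1 z hz, ← h2 z hz]
    ring
  have han : AnalyticOnNhd ℂ P Ω := hP.analyticOnNhd hΩ
  have hcst : AnalyticOnNhd ℂ (fun _ : ℂ => (a1 + a2) / 2) Ω := analyticOnNhd_const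
  have hev : P =ᶠ[𝓝 z0] (fun _ : ℂ => (a1 + a2) / 2) := by
    filter_upwards [hBo.mem_nhds (Metric.mem_ball_self hr)] with z hz
    exact h3 z hz
  have h4 := han.eqOn_of_preconnected_of_eventuallyEq hcst hcon (hVΩ hz0) hev
  exact fun z hz => h4 hz

end Pool.Agent.Helper65.PI
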