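import Pool.Agent.Helper65.PI.St

set_option autoImplicit false

open Set Filter Topology MeasureTheory Complex
open scoped ContDiff ComplexConjugate

namespace Pool.Agent.Helper65.PI

theorem integral_fderiv_SHIFT (φ : ℂ → ℝ) (w : ℂ) (h : ContDiff ℝ ∞ φ) (hc : HasCompactSupport φ) :
    Integrable (fun z => fderiv ℝ φ z w) ∧ ∫ z, fderiv ℝ φ z w = 0 := by
  have h1 : Continuous fun z => fderiv ℝ φ z w :=
    (h.continuous_fderiv (by simp)).clm_apply continuous_const
  have h2 : Integrable (fun z => fderiv ℝ φ z w) :=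
    h1.integrable_of_hasCompactSupport (hc.fderiv_apply ℝ w)
  refine ⟨h2, ?_⟩
  have h3 := integral_mul_fderiv_eq_neg_fderiv_mul_of_integrable (μ := (volume : Measure ℂ))
    (f := fun _ : ℂ => (1 : ℝ)) (g := φ) (v := w) (by simp) (by simpa using h2)
    (by simpa using h.continuous.integrable_of_hasCompactSupport hc)
    (fun _ _ => differentiableAt_const _) (fun x _ => (h.differentiable (by simp)) x)
  simpa using h3

theorem integral_add_SHIFT (φ v : ℂ → ℝ) (w : ℂ) (c : ℝ) (h : ContDiff ℝ ∞ φ)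
    (hc : HasCompactSupport φ) :
    ∫ z, fderiv ℝ φ z w * (v z + c) = ∫ z, fderiv ℝ φ z w * v z := by
  obtain ⟨h1, h2⟩ := integral_fderiv_SHIFT φ w h hc
  have h3 : Integrable (fun z => fderiv ℝ φ z w * c) := h1.mul_const c
  have e : (fun z => fderiv ℝ φ z w * (v z + c)) =
      fun z => fderiv ℝ φ z w * v z + fderiv ℝ φ z w * c := by
    funext z
    ring
  rw [e]
  by_cases hi : Integrable (fun z => fderiv ℝ φ z w * v z)
  · rw [integral_add hi h3, integral_mul_const, h2, zero_mul, add_zero]
  · rw [integral_undef hi, integral_undef]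
    intro h4
    apply hi
    have h5 := h4.sub h3
    refine h5.congr (Eventually.of_forall fun z => ?_)
    simp

theorem shift : StSHIFT := by
  intro Ω D k u v c _ hP
  obtain ⟨hu, hv, g, hg, hgu, hgv⟩ := hP
  refine ⟨hu, hv.add continuousOn_const, g, hg, hgu, ?_⟩
  intro φ h hc hs
  obtain ⟨h1, h2⟩ := hgv φ h hc hs
  exact ⟨by rw [integral_add_SHIFT φ v 1 c h hc]; exact h1,
    by rw [integral_add_SHIFT φ v I c h hc]; exact h2⟩

end Pool.Agent.Helper65.PI
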