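import Pool.Agent.Helper65.PI.St

/-!
# Planar inclusions: the last part
-/

set_option autoImplicit false

open Set Filter Topology MeasureTheory Complex
open scoped ContDiff ComplexConjugate

namespace Pool.Agent.Helper65.PI

private theorem setup_symm_TOP {Ω D D' : Set ℂ} {P Q Q' : ℂ → ℂ} {c : ℝ} {κ κ' : ℂ} {C : Set ℂ}
    (hs : Setup Ω D D' P Q Q' c κ κ' C) : Setup Ω D' D P Q' Q c κ' κ C where
  open_Ω := hs.open_Ω
  conn_Ω := hs.conn_Ω
  bdd_Ω := hs.bdd_Ω
  adm := hs.adm'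
  adm' := hs.adm
  holP := hs.holP
  nonconst := hs.nonconst
  contQ := hs.contQ'
  contQ' := hs.contQ
  holQ := hs.holQ'
  holQ' := hs.holQ
  c_ne := hs.c_ne
  eqD := hs.eqD'
  eqD' := hs.eqD
  compC := hs.compC
  subC := hs.subC
  near := fun z hz => (hs.near z hz).symm

private theorem kk_symm_TOP (Ω D D' : Set ℂ) (Q Q' : ℂ → ℂ) :
    KK Ω D' D Q' Q = KK Ω D D' Q Q' := by
  unfold KK
  congr 1
  ext z
  simp only [Set.mem_ofPred_eq]
  constructor
  · rintro ⟨h1, h2, h3⟩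
    exact ⟨h2, h1, h3.mono fun w hw => hw.symm⟩
  · rintro ⟨h1, h2, h3⟩
    exact ⟨h2, h1, h3.mono fun w hw => hw.symm⟩

/-- the last part: the two inclusions are equal -/
theorem top (hk : StKK) (he : StEQ) (hn : StNE) : StTOP := by
  intro Ω D D' P Q Q' c κ κ' C hs
  have hs' := setup_symm_TOP hs
  by_cases h : κ = κ'
  · subst h
    exact Subset.antisymm (he Ω D' D P Q' Q c κ C hs') (he Ω D D' P Q Q' c κ C hs)
  · exfalso
    have h1 := hn Ω D D' P Q Q' c κ κ' C hs h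
    have h2 := hn Ω D' D P Q' Q c κ' κ C hs' (Ne.symm h)
    rw [kk_symm_TOP] at h2
    obtain ⟨hc, hD, -, hf⟩ := hk Ω D D' P Q Q' c κ κ' C hs
    have h3 : frontier (KK Ω D D' Q Q') = ∅ := by
      rw [eq_empty_iff_forall_notMem]
      intro z hz
      rcases (hf z hz).2.2.2 with h4 | h4
      · exact (eq_empty_iff_forall_notMem.1 h2 z) ⟨h4, hz⟩
      · exact (eq_empty_iff_forall_notMem.1 h1 z) ⟨h4, hz⟩
    have h5 : IsClopen (KK Ω D D' Q Q') := isClopen_iff_frontier_eq_empty.2 h3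
    have h6 : (KK Ω D D' Q Q').Nonempty :=
      (hs.adm.conn.nonempty.mono subset_closure).mono hD
    have h7 := h5.eq_univ h6
    rw [h7] at hc
    exact noncompact_univ ℂ hc

end Pool.Agent.Helper65.PI
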