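import Pool.Agent.Helper65.PI.St

/-!
# Weyl's lemma for the Cauchy-Riemann operator
-/

set_option autoImplicit false

open Set Filter Topology MeasureTheory Complex Metric
open scoped ContDiff ComplexConjugate Convolution

namespace Pool.Agent.Helper65.PI

theorem weyl : StWEYL := by
  intro V f hV hf hW
  intro z0 hz0
  obtain ⟨R, hR, hRV⟩ := Metric.isOpen_iff.1 hV z0 hz0
  obtain ⟨r, hr, hr3⟩ : ∃ r : ℝ, 0 < r ∧ closedBall z0 (3 * r) ⊆ V :=
    ⟨R / 4, by positivity, (closedBall_subset_ball (by linarith)).trans hRV⟩
  set B : Set ℂ := closedBall z0 (2 * r) with hB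
  have hBV : B ⊆ V := (closedBall_subset_closedBall (by linarith)).trans hr3
  have hBc : IsCompact B := isCompact_closedBall _ _
  set g : ℂ → ℂ := B.indicator f with hg
  have hgi : Integrable g volume := by
    rw [hg, integrable_indicator_iff hBc.measurableSet]
    exact (hf.mono hBV).integrableOn_compact hBc
  have hgl : LocallyIntegrable g volume := hgi.locallyIntegrable
  let ρ : ℕ → ContDiffBump (0 : ℂ) := fun n =>
    { rIn := r / (2 * ((n : ℝ) + 2))
      rOut := r / ((n : ℝ) + 2)
      rIn_pos := by positivity
      rIn_lt_rOut := by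
        apply div_lt_div_of_pos_left hr (by positivity)
        have : (0 : ℝ) ≤ n := Nat.cast_nonneg n
        linarith }
  have hρr : ∀ n, (ρ n).rOut = r / ((n : ℝ) + 2) := fun n => rfl
  have hρlt : ∀ n, (ρ n).rOut < r := by
    intro n
    rw [hρr]
    apply div_lt_self hr
    have : (0 : ℝ) ≤ n := Nat.cast_nonneg n
    linarith
  let F : ℕ → ℂ → ℂ := fun n => ((ρ n).normed volume ⋆[ContinuousLinearMap.lsmul ℝ ℝ, volume] g)
  have hFd : ∀ n, DifferentiableOn ℂ (F n) (ball z0 r) := by
    intro n w hw
    apply DifferentiableAt.differentiableWithinAt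
    have hcs : HasCompactSupport ((ρ n).normed volume) := (ρ n).hasCompactSupport_normed
    have hcd : ContDiff ℝ ∞ ((ρ n).normed (volume : Measure ℂ)) := (ρ n).contDiff_normed
    have hD := hcs.hasFDerivAt_convolution_left (ContinuousLinearMap.lsmul ℝ ℝ)
      (hcd.of_le (by exact_mod_cast le_top)) hgl w
    rw [differentiableAt_complex_iff_differentiableAt_real]
    refine ⟨hD.differentiableAt, ?_⟩
    rw [hD.fderiv]
    -- values of the derivative
    have hval : ∀ v : ℂ,
        ((fderiv ℝ ((ρ n).normed volume) ⋆[(ContinuousLinearMap.lsmul ℝ ℝ).precompL ℂ, volume] g) w)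
          v = ∫ t, (fderiv ℝ ((ρ n).normed volume) (w - t) v : ℂ) * g t := by
      intro v
      have hex := (hcs.fderiv ℝ).convolutionExists_left
        ((ContinuousLinearMap.lsmul ℝ ℝ : ℝ →L[ℝ] ℂ →L[ℝ] ℂ).precompL ℂ)
        (hcd.continuous_fderiv (by simp)) hgl w
      rw [convolution_def, ContinuousLinearMap.integral_apply hex]
      rw [← integral_sub_left_eq_self _ volume w]
      apply integral_congr_ae
      refine Eventually.of_forall fun t => ?_
      simp [ContinuousLinearMap.precompL_apply]
    have hI : ∀ v : ℂ, Integrable (fun t => (fderiv ℝ ((ρ n).normed volume) (w - t) v : ℂ) * g t)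
        volume := by
      intro v
      have hex := (hcs.fderiv ℝ).convolutionExists_left
        ((ContinuousLinearMap.lsmul ℝ ℝ : ℝ →L[ℝ] ℂ →L[ℝ] ℂ).precompL ℂ)
        (hcd.continuous_fderiv (by simp)) hgl w
      have h1 := (hex.integrable.apply_continuousLinearMap v).comp_sub_left w
      refine h1.congr (Eventually.of_forall fun t => ?_)
      simp [ContinuousLinearMap.precompL_apply]
    rw [hval, hval]
    -- the test function
    have hT := hW (fun z => (ρ n).normed volume (w - z))
      (hcd.comp (contDiff_const.sub contDiff_id)) ?_ ?_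
    · have hfd : ∀ z v : ℂ, fderiv ℝ (fun z => (ρ n).normed volume (w - z)) z v
          = - fderiv ℝ ((ρ n).normed volume) (w - z) v := by
        intro z v
        have h1 : HasFDerivAt (fun z : ℂ => w - z) (-(ContinuousLinearMap.id ℝ ℂ)) z := by
          simpa using (hasFDerivAt_id (𝕜 := ℝ) z).const_sub w
        have h2 : HasFDerivAt ((ρ n).normed (volume : Measure ℂ))
            (fderiv ℝ ((ρ n).normed volume) (w - z)) (w - z) :=
          ((hcd.differentiable (by simp)) (w - z)).hasFDerivAt
        have h3 := h2.comp z h1
        have h4 : fderiv ℝ (fun z => (ρ n).normed volume (w - z)) z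
            = (fderiv ℝ ((ρ n).normed volume) (w - z)).comp (-(ContinuousLinearMap.id ℝ ℂ)) :=
          h3.fderiv
        rw [h4]
        simp
      have hfg : ∀ z v : ℂ, (fderiv ℝ ((ρ n).normed volume) (w - z) v : ℂ) * f z
          = (fderiv ℝ ((ρ n).normed volume) (w - z) v : ℂ) * g z := by
        intro z v
        by_cases hz : z ∈ B
        · rw [hg, indicator_of_mem hz]
        · have h0 : fderiv ℝ ((ρ n).normed (volume : Measure ℂ)) (w - z) = 0 := by
            by_contra hne
            have h5 : w - z ∈ tsupport ((ρ n).normed (volume : Measure ℂ)) := by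
              by_contra hns
              exact hne (fderiv_of_notMem_tsupport (𝕜 := ℝ) hns)
            rw [(ρ n).tsupport_normed_eq, mem_closedBall, dist_zero_right] at h5
            apply hz
            rw [hB, mem_closedBall]
            have h6 : dist z z0 ≤ dist z w + dist w z0 := dist_triangle _ _ _
            have h7 : dist z w ≤ (ρ n).rOut := by
              rw [dist_comm, dist_eq_norm]; exact h5
            have h8 : dist w z0 < r := hw
            linarith [hρlt n]
          rw [h0]; simp
      have hsum : ∫ z, ((fderiv ℝ ((ρ n).normed volume) (w - z) 1 : ℂ) * g z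
          + I * ((fderiv ℝ ((ρ n).normed volume) (w - z) I : ℂ) * g z)) = 0 := by
        have : (fun z => ((fderiv ℝ ((ρ n).normed volume) (w - z) 1 : ℂ) * g z
          + I * ((fderiv ℝ ((ρ n).normed volume) (w - z) I : ℂ) * g z)))
          = fun z => -(((fderiv ℝ (fun z => (ρ n).normed volume (w - z)) z 1 : ℂ)
            + I * (fderiv ℝ (fun z => (ρ n).normed volume (w - z)) z I : ℂ)) * f z) := by
          funext z
          rw [hfd, hfd, ← hfg, ← hfg]
          push_cast
          ring
        rw [this, integral_neg, hT, neg_zero]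
      rw [integral_add (hI 1) ((hI I).const_mul I), integral_const_mul] at hsum
      have hII : I * I = -1 := I_mul_I
      rw [smul_eq_mul]
      linear_combination (-I) * hsum + (∫ z, (fderiv ℝ ((ρ n).normed volume) (w - z) I : ℂ) * g z) * hII
    · exact hcs.comp_homeomorph (Homeomorph.subLeft w)
    · intro z hz
      have h1 : w - z ∈ tsupport ((ρ n).normed (volume : Measure ℂ)) := by
        have := tsupport_comp_subset_preimage ((ρ n).normed (volume : Measure ℂ))
          (f := fun z : ℂ => w - z) (continuous_const.sub continuous_id) hz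
        exact this
      rw [(ρ n).tsupport_normed_eq, mem_closedBall, dist_zero_right] at h1
      apply hr3
      rw [mem_closedBall]
      have h6 : dist z z0 ≤ dist z w + dist w z0 := dist_triangle _ _ _
      have h7 : dist z w ≤ (ρ n).rOut := by
        rw [dist_comm, dist_eq_norm]; exact h1
      have h8 : dist w z0 < r := hw
      linarith [hρlt n]
  have huc : UniformContinuousOn f B := hBc.uniformContinuousOn_of_continuous (hf.mono hBV)
  have hlim : TendstoUniformlyOn F f atTop (ball z0 r) := by
    rw [Metric.tendstoUniformlyOn_iff]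
    intro ε hε
    obtain ⟨δ, hδ, hδf⟩ := Metric.uniformContinuousOn_iff.1 huc (ε / 2) (by positivity)
    have hev : ∀ᶠ n : ℕ in atTop, (ρ n).rOut < δ := by
      have : Tendsto (fun n : ℕ => r / ((n : ℝ) + 2)) atTop (𝓝 0) := by
        apply Tendsto.div_atTop tendsto_const_nhds
        exact tendsto_atTop_add_const_right _ _ tendsto_natCast_atTop_atTop
      exact this.eventually (gt_mem_nhds hδ)
    filter_upwards [hev] with n hn w hw
    have hwB : w ∈ B := by
      rw [hB, mem_closedBall]
      have h8 : dist w z0 < r := hw
      linarith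
    have hgw : g w = f w := by rw [hg, indicator_of_mem hwB]
    have h1 : dist (F n w) (g w) ≤ ε / 2 := by
      apply ContDiffBump.dist_normed_convolution_le hgi.aestronglyMeasurable
      intro x hx
      have hx' : dist x w < (ρ n).rOut := hx
      have hxB : x ∈ B := by
        rw [hB, mem_closedBall]
        have h6 : dist x z0 ≤ dist x w + dist w z0 := dist_triangle _ _ _
        have h8 : dist w z0 < r := hw
        linarith [hρlt n]
      rw [hgw, hg, indicator_of_mem hxB]
      exact (hδf x hxB w hwB (hx'.trans hn)).le
    rw [dist_comm, ← hgw]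
    linarith
  have hfin : DifferentiableOn ℂ f (ball z0 r) :=
    hlim.tendstoLocallyUniformlyOn.differentiableOn (Eventually.of_forall hFd) isOpen_ball
  exact ((hfin z0 (mem_ball_self hr)).differentiableAt (isOpen_ball.mem_nhds (mem_ball_self hr))).differentiableWithinAt

end Pool.Agent.Helper65.PI
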